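import Pool.Agent.MP_8fe08c_co.h66.Chk

/-! Decision trees on occupied and empty arcs. -/

set_option autoImplicit false

namespace Pool.Agent.MP_8fe08c_co.h66

noncomputable section

/-- queries, contradictions and schemes -/
inductive Tr
  | q (p q : ℕ) (l r : Tr)
  | c (i j : ℕ)
  | f (z : ℕ)

abbrev Ls : Type := List (ℕ × ℕ × ℕ)

def sav (d : ℕ) : ℕ :=
  frc (mn d (Nat.sub 11520 d)) fun e => frc (tix 11520 (Nat.mul 2 e)) fun t =>
    Nat.sub (Nat.mul 26986075410 d) (Nat.add (Nat.mul (ta t) 11520) (Nat.mul (tb t) e))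

def insK (E : Ls) : ℕ → ℕ → (Ls → Bool) → Bool :=
  List.rec (motive := fun _ => ℕ → ℕ → (Ls → Bool) → Bool)
    (fun p q k => frc (sav (Nat.sub q p)) fun s => k [(p, q, s)])
    (fun a E ih p q k => cnd (Nat.ble a.1 q)
      (cnd (Nat.ble p a.2.1) (frc (mn p a.1) fun p' => frc (mx q a.2.1) fun q' => ih p' q' k)
        (ih p q fun L => k (a :: L)))
      (frc (sav (Nat.sub q p)) fun s => k ((p, q, s) :: a :: E))) E

def rfn (E : Ls) : ℕ → ℕ → (ℕ → ℕ → Bool) → Bool :=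
  List.rec (motive := fun _ => ℕ → ℕ → (ℕ → ℕ → Bool) → Bool) (fun a b k => k a b)
    (fun e _ ih a b k => frc (cnd (Nat.ble e.1 a) (mx a e.2.1) a) fun a' =>
      frc (cnd (Nat.ble b e.2.1) (mn b e.1) b) fun b' => ih a' b' k) E

def win (E Ws : Ls) (i : ℕ) (k : ℕ → ℕ → Bool) : Bool :=
  frc (getE Ws i).1 fun p => frc (getE Ws i).2.1 fun q => band (Nat.ble 1 q) (rfn E p q k)

def wins (E Ws : Ls) (k : Ls → ℕ → Bool) (n : ℕ) : Ls → ℕ → Bool :=
  Nat.rec (motive := fun _ => Ls → ℕ → Bool) k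
    (fun _ ih L z => frc (Nat.mod z 64) fun i => win E Ws i fun a b =>
      frc (Nat.div z 64) (ih ((a, b, 0) :: L))) n

def pkL (L : Ls) : ℕ :=
  List.rec (motive := fun _ => ℕ) 11520 (fun a _ ih => Nat.add a.1 (Nat.mul 1048576 ih)) L

def pkH (L : Ls) : ℕ :=
  List.rec (motive := fun _ => ℕ) 11520 (fun a _ ih => Nat.add a.2.1 (Nat.mul 1048576 ih)) L

def srt (E : Ls) : ℕ → Bool :=
  List.rec (motive := fun _ => ℕ → Bool) (fun b => Nat.ble b 11520)
    (fun a _ ih b => band (Nat.ble b a.1) (band (Nat.ble (Nat.add a.1 1) a.2.1) (ih a.2.1))) E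

def lfB (x : Cx) (L : Ls) (s : ℕ) : Bool :=
  band (band (Nat.ble 1 x.m) (srt x.E 0))
    (band (band (Nat.beq (lo x 0) 0) (band (Nat.ble (lo x x.m) 11520) (Nat.ble 11520 (hi x x.m))))
      (band (allR (fun a => band (Nat.ble (lo x (Nat.add a 1)) (getE L a).1)
        (band (Nat.ble (getE L a).2.1 (hi x (Nat.add a 1))) (Nat.ble 1 (getE L a).2.1)))
          (Nat.sub x.m 1)) (leafOK x s)))

def lfc (cn PC : ℕ) (TP : Ls) (z : ℕ) (E Ws : Ls) : Bool :=
  frc (Nat.mod z 1024) fun i => frc (getE TP i).1 fun m => frc (getE TP i).2.1 fun W =>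
    frc (Nat.div z 1024) (wins E Ws (fun L s => frc (Nat.mul 1048576 (pkL L)) fun LO =>
      frc (Nat.mul 1048576 (pkH L)) fun HI =>
        lfB ⟨11520, 0, m, 26986075410, W, LO, HI, PC, cn, 10000, E⟩ L s) (Nat.sub m 1) [])

def chk (cn PC : ℕ) (TP : Ls) (t : Tr) : Ls → Ls → Bool :=
  Tr.rec (motive := fun _ => Ls → Ls → Bool)
    (fun p q _ _ l r E Ws => band (l E ((p, q, 0) :: Ws)) (insK E p q fun L => r L Ws))
    (fun i j E Ws => win E Ws i fun a b => bor (Nat.ble b a)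
      (band (Nat.ble (getE E j).2.1 11520)
        (Nat.ble (Nat.add 11520 (getE E j).1) (Nat.add a (getE E j).2.1))))
    (lfc cn PC TP) t

def allT (TP : Ls) : Bool :=
  List.rec (motive := fun _ => Bool) true (fun a _ ih => band (topOK a.1 a.2.1) ih) TP

/-- slices of the length of the last gap -/
def chain (cn PC : ℕ) (TP : Ls) (L : List (ℕ × Tr)) (e : ℕ) : ℕ → Bool :=
  List.rec (motive := fun _ => ℕ → Bool) (fun q => Nat.ble q e)
    (fun a _ ih q => band (cnd (Nat.ble 11520 q) (chk cn PC TP a.2 [] [(a.1, q, 0)])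
      (insK [] q 11520 fun E => chk cn PC TP a.2 E [(a.1, q, 0)])) (ih a.1)) L

end

end Pool.Agent.MP_8fe08c_co.h66
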