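import Pool.Agent.MP_8fe08c_co.h66.ConS
import Pool.Agent.MP_8fe08c_co.h66.Con0
import Pool.Agent.MP_8fe08c_co.h66.Con1
import Pool.Agent.MP_8fe08c_co.h66.Con2
import Pool.Agent.MP_8fe08c_co.h66.Con3
import Pool.Agent.MP_8fe08c_co.h66.Con4

/-! Sets on a circle. -/

set_option autoImplicit false

namespace Pool.Agent.MP_8fe08c_co.h66

noncomputable section

open h31

theorem concyclic {c : Pt} {r : ℝ} (hr : 0 < r) {P : Finset Pt} (hP : ∀ p ∈ P, dist p c = r) :
    planeDilation P ≤ ENNReal.ofReal ((14700 : ℕ) / 10000) := by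
  refine conc hr hP fun θ C h => ?_
  refine (chain_ok C tp_ok _ _ c0 h).elim Or.inl fun h => ?_
  refine (chain_ok C tp_ok _ _ c1 h).elim Or.inl fun h => ?_
  refine (chain_ok C tp_ok _ _ c2 h).elim Or.inl fun h => ?_
  refine (chain_ok C tp_ok _ _ c3 h).elim Or.inl fun h => ?_
  refine (chain_ok C tp_ok _ _ c4 h).elim Or.inl fun h => ?_
  refine (chain_ok C tp_ok _ _ c5 h).elim Or.inl fun h => ?_
  refine (chain_ok C tp_ok _ _ c6 h).elim Or.inl fun h => ?_
  refine (chain_ok C tp_ok _ _ c7 h).elim Or.inl fun h => ?_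
  refine (chain_ok C tp_ok _ _ c8 h).elim Or.inl fun h => ?_
  refine (chain_ok C tp_ok _ _ c9 h).elim Or.inl fun h => ?_
  refine (chain_ok C tp_ok _ _ c10 h).elim Or.inl fun h => ?_
  refine (chain_ok C tp_ok _ _ c11 h).elim Or.inl fun h => ?_
  refine (chain_ok C tp_ok _ _ c12 h).elim Or.inl fun h => ?_
  refine (chain_ok C tp_ok _ _ c13 h).elim Or.inl fun h => ?_
  refine (chain_ok C tp_ok _ _ c14 h).elim Or.inl fun h => ?_
  refine (chain_ok C tp_ok _ _ c15 h).elim Or.inl fun h => ?_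
  exact chain_ok C tp_ok _ _ c16 h

end

end Pool.Agent.MP_8fe08c_co.h66
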