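import Pool.Agent.MP_8fe08c_co.h66.Top
import Pool.Agent.MP_8fe08c_co.h66.ConD

/-! Soundness of the decision trees. -/

set_option autoImplicit false

namespace Pool.Agent.MP_8fe08c_co.h66

open Real h31

/-- the gain of a chord over the boundary walk -/
noncomputable def gn (d : ℝ) : ℝ := 26986075410 * d - 11520 * 4294967296 * ch 11520 d

theorem tb_zero : tb 0 = 26986075410 := by decide +kernel

theorem gn_nonneg {d : ℝ} (h0 : 0 ≤ d) (h1 : d ≤ 11520) : 0 ≤ gn d := by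
  have := (tok (Nat.zero_le _)).2 11520 d (by norm_num) h0 h1
  rw [ta_zero, tb_zero] at this
  unfold gn
  push_cast at this
  linarith

theorem gn_add {a b : ℝ} (ha : 0 ≤ a) (hb : 0 ≤ b) (h : a + b ≤ 11520) :
    gn a + gn b ≤ gn (a + b) := by
  have i1 := ch_nonneg (U := 11520) (x := a) (by norm_num) ha (by linarith)
  have i2 := ch_nonneg (U := 11520) (x := b) (by norm_num) hb (by linarith)
  unfold gn ch at *
  rw [show π * (a + b) / 11520 = π * a / 11520 + π * b / 11520 by ring, sin_add]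
  nlinarith [cos_le_one (π * a / 11520), cos_le_one (π * b / 11520)]

theorem sav_le {d : ℕ} (h : d ≤ 11520) : (sav d : ℝ) ≤ gn d := by
  have r : (d : ℝ) ≤ 11520 := by exact_mod_cast h
  rw [sav, frc_eq, frc_eq, mn_eq]
  refine sub_le' (gn_nonneg d.cast_nonneg r) ?_
  have e : ch 11520 (min d (Nat.sub 11520 d) : ℕ) = ch 11520 d := by
    rcases le_total d (Nat.sub 11520 d) with k | k
    · rw [min_eq_left k]
    · rw [min_eq_right k, Nat.sub_eq, Nat.cast_sub h]
      exact ch_symm (by norm_num) _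
  have g : 2 * min d (Nat.sub 11520 d) ≤ 11520 := by simp only [Nat.sub_eq]; omega
  generalize min d (Nat.sub 11520 d) = m at e g
  have := (tok (tix_le (U := 11520) (by norm_num) g)).2 11520 m (by norm_num) m.cast_nonneg
    (by exact_mod_cast (by omega : m ≤ 11520))
  simp only [Nat.mul_eq, Nat.add_eq, gn]
  push_cast
  linarith

/-- an empty arc -/
def Emp (Q : Set ℝ) (p q : ℕ) : Prop := ∀ y ∈ Q, 0 ≤ y → y < 11520 → y < p ∨ q ≤ y

/-- an occupied arc -/
def Win (Q : Set ℝ) (p q : ℕ) : Prop := ∃ y ∈ Q, 0 ≤ y ∧ y < 11520 ∧ p ≤ y ∧ y < q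

/-- empty arcs with their savings -/
def EI (Q : Set ℝ) (E : Ls) : Prop := ∀ a ∈ E, Emp Q a.1 a.2.1 ∧ a.2.2 = sav (a.2.1 - a.1)

variable {Q : Set ℝ}

theorem getE_mem (E : Ls) : ∀ a, getE E a = (0, 0, 0) ∨ getE E a ∈ E := by
  induction E with
  | nil => exact fun _ => Or.inl rfl
  | cons b E ih =>
    intro a
    cases a with
    | zero => exact Or.inr List.mem_cons_self
    | succ a => exact (ih a).imp id (List.mem_cons_of_mem _)

theorem insK_ok (E : Ls) : ∀ p q k, EI Q E → Emp Q p q → insK E p q k = true →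
    ∃ L, EI Q L ∧ k L = true := by
  induction E with
  | nil =>
    intro p q k _ h1 h
    exact ⟨_, List.forall_mem_singleton.2 ⟨h1, rfl⟩, (frc_eq _ _).symm.trans h⟩
  | cons a E ih =>
    intro p q k h0 h1 h
    obtain ⟨h2, h3⟩ := List.forall_mem_cons.1 h0
    rcases cnd_or (p := (· = true)) h with ⟨u, h⟩ | ⟨-, h⟩
    · rcases cnd_or (p := (· = true)) h with ⟨v, h⟩ | ⟨-, h⟩
      · rw [frc_eq, frc_eq, mn_eq, mx_eq] at h
        refine ih _ _ k h3 (fun y hy y0 y1 => ?_) h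
        have u : (a.1 : ℝ) ≤ q := Nat.cast_le.2 (Nat.le_of_ble_eq_true u)
        have v : (p : ℝ) ≤ a.2.1 := Nat.cast_le.2 (Nat.le_of_ble_eq_true v)
        push_cast
        rcases h1 y hy y0 y1 with i | i <;> rcases h2.1 y hy y0 y1 with j | j
        exacts [Or.inl (lt_min i j), by linarith, by linarith, Or.inr (max_le i j)]
      · obtain ⟨L, i, j⟩ := ih _ _ _ h3 h1 h
        exact ⟨_, List.forall_mem_cons.2 ⟨h2, i⟩, j⟩
    · exact ⟨_, List.forall_mem_cons.2 ⟨⟨h1, rfl⟩, h0⟩, (frc_eq _ _).symm.trans h⟩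

theorem rfn_ok (E : Ls) : ∀ a b k, EI Q E → Win Q a b → rfn E a b k = true →
    ∃ a b, Win Q a b ∧ k a b = true := by
  induction E with
  | nil => exact fun a b k _ h1 h => ⟨a, b, h1, h⟩
  | cons e E ih =>
    rintro a b k h0 ⟨y, hy, y0, y1, y2, y3⟩ h
    obtain ⟨h2, h3⟩ := List.forall_mem_cons.1 h0
    have h := ((frc_eq _ _).symm.trans ((frc_eq _ _).symm.trans h))
    refine ih _ _ k h3 ⟨y, hy, y0, y1, ?_, ?_⟩ h <;> rw [cnd_eq] <;> split_ifs with u
    · have u : (e.1 : ℝ) ≤ a := Nat.cast_le.2 (Nat.le_of_ble_eq_true u)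
      rw [mx_eq, Nat.cast_max]
      exact max_le y2 ((h2.1 y hy y0 y1).resolve_left (by linarith))
    · exact y2
    · have u : (b : ℝ) ≤ e.2.1 := Nat.cast_le.2 (Nat.le_of_ble_eq_true u)
      rw [mn_eq, Nat.cast_min]
      exact lt_min y3 ((h2.1 y hy y0 y1).resolve_right (by linarith))
    · exact y3

theorem get_win {Ws : Ls} (hW : ∀ a ∈ Ws, Win Q a.1 a.2.1) {i : ℕ}
    (h : Nat.ble 1 (getE Ws i).2.1 = true) : Win Q (getE Ws i).1 (getE Ws i).2.1 :=
  (getE_mem Ws i).elim (fun e => by rw [e] at h; exact absurd h (by decide)) (hW _)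

theorem win_ok {E Ws : Ls} {i : ℕ} {k : ℕ → ℕ → Bool} (hE : EI Q E)
    (hW : ∀ a ∈ Ws, Win Q a.1 a.2.1) (h : win E Ws i k = true) :
    ∃ a b, Win Q a b ∧ k a b = true := by
  rw [win, frc_eq, frc_eq, band_iff] at h
  exact rfn_ok E _ _ k hE (get_win hW h.1) h.2

theorem wins_ok {E Ws : Ls} {k : Ls → ℕ → Bool} (hE : EI Q E) (hW : ∀ a ∈ Ws, Win Q a.1 a.2.1)
    (n : ℕ) : ∀ L z, (∀ a ∈ L, Win Q a.1 a.2.1) → wins E Ws k n L z = true →
      ∃ L z, (∀ a ∈ L, Win Q a.1 a.2.1) ∧ k L z = true := by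
  induction n with
  | zero => exact fun L z h1 h => ⟨L, z, h1, h⟩
  | succ n ih =>
    intro L z h1 h
    obtain ⟨a, b, i, j⟩ := win_ok hE hW ((frc_eq _ _).symm.trans h)
    exact ih _ _ (List.forall_mem_cons.2 ⟨i, h1⟩) ((frc_eq _ _).symm.trans j)

theorem srt_cons {a : ℕ × ℕ × ℕ} {E : Ls} {b : ℕ} (h : srt (a :: E) b = true) :
    b ≤ a.1 ∧ a.1 < a.2.1 ∧ srt E a.2.1 = true := by
  obtain ⟨h1, h2⟩ := band_iff.1 h
  obtain ⟨h2, h3⟩ := band_iff.1 h2
  exact ⟨Nat.le_of_ble_eq_true h1, Nat.le_of_ble_eq_true h2, h3⟩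

theorem srt_le (E : Ls) : ∀ b, srt E b = true → b ≤ 11520 ∧ ∀ a ∈ E, a.1 < a.2.1 := by
  induction E with
  | nil => exact fun b h => ⟨Nat.le_of_ble_eq_true h, fun _ h => absurd h List.not_mem_nil⟩
  | cons a E ih =>
    intro b h
    obtain ⟨h1, h2, h3⟩ := srt_cons h
    exact ⟨by have := (ih _ h3).1; omega, List.forall_mem_cons.2 ⟨h2, (ih _ h3).2⟩⟩

theorem shi_gn (E : Ls) : ∀ (b : ℕ) (y z : ℝ), EI Q E → srt E b = true → 0 ≤ y → y ≤ z →
    z ≤ 11520 → (y ≤ b → shiR E z ≤ gn (z - y)) ∧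
      (y ∈ Q → y < 11520 → shiR E z - shiR E y ≤ gn (z - y)) := by
  induction E with
  | nil =>
    intro b y z _ _ h0 h1 h2
    simpa [shiR] using ⟨fun _ => gn_nonneg (by linarith) (by linarith),
      fun _ _ => gn_nonneg (by linarith) (by linarith)⟩
  | cons a E ih =>
    intro b y z hE h h0 h1 h2
    obtain ⟨e1, e2⟩ := List.forall_mem_cons.1 hE
    obtain ⟨s1, s2, s3⟩ := srt_cons h
    have A : y ≤ a.1 → shiR (a :: E) z ≤ gn (z - y) := fun k => by
      unfold shiR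
      split_ifs with u
      · have r : (a.1 : ℝ) ≤ a.2.1 := Nat.cast_le.2 s2.le
        have i1 := (ih _ a.2.1 z e2 s3 (Nat.cast_nonneg _) u h2).1 le_rfl
        have i2 := sav_le (d := a.2.1 - a.1) (by have := (srt_le E _ s3).1; omega)
        rw [← e1.2, Nat.cast_sub s2.le] at i2
        have i3 := gn_add (a := a.2.1 - a.1) (b := z - a.2.1) (by linarith) (by linarith)
          (by linarith)
        have i4 := gn_add (a := a.1 - y) (b := a.2.1 - a.1 + (z - a.2.1)) (by linarith)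
          (by linarith) (by linarith)
        have i5 := gn_nonneg (d := a.1 - y) (by linarith) (by linarith)
        rw [show (a.1 : ℝ) - y + (a.2.1 - a.1 + (z - a.2.1)) = z - y by ring] at i4
        linarith
      · exact gn_nonneg (by linarith) (by linarith)
    refine ⟨fun k => A (k.trans (Nat.cast_le.2 s1)), fun hy y1 => ?_⟩
    rcases e1.1 y hy h0 y1 with k | k
    · linarith [A k.le, shiR_nonneg (a :: E) y]
    · have := (ih _ y z e2 s3 h0 h1 h2).2 hy y1
      unfold shiR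
      rw [if_pos k, if_pos (k.trans h1)]
      linarith

variable {c : Pt} {r θ : ℝ} {P : Finset Pt} {cn PC : ℕ} {TP : Ls}

/-- the position zero ends a largest gap -/
structure Cf (c : Pt) (r θ : ℝ) (P : Finset Pt) : Prop where
  hr : 0 < r
  hP : ∀ p ∈ P, ∃ y : ℝ, 0 ≤ y ∧ y < 11520 ∧ ee c r θ 11520 y = p
  h0 : ee c r θ 11520 0 ∈ P
  gap : ∀ y t, ee c r θ 11520 y ∈ P → y < 11520 →
    ∃ w, ee c r θ 11520 w ∈ P ∧ t ≤ w ∧ w < t + (11520 - y)

theorem lfB_ok (C : Cf c r θ P) {m W LO HI s : ℕ} {E L : Ls} (ht : 1 ≤ m → topOK m W = true)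
    (hE : EI {y | ee c r θ 11520 y ∈ P} E) (hL : ∀ a ∈ L, Win {y | ee c r θ 11520 y ∈ P} a.1 a.2.1)
    (h : lfB ⟨11520, 0, m, 26986075410, W, LO, HI, PC, cn, 10000, E⟩ L s = true) :
    planeDilation P ≤ ENNReal.ofReal (cn / 10000) := by
  generalize hx : (⟨11520, 0, m, 26986075410, W, LO, HI, PC, cn, 10000, E⟩ : Cx) = x at h
  have eU : (x.U : ℝ) = 11520 := by rw [← hx]; exact Nat.cast_ofNat
  have eH : (x.H : ℝ) = 26986075410 := by rw [← hx]; exact Nat.cast_ofNat
  have eE : x.E = E := by rw [← hx]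
  simp only [lfB, band_iff, allR_iff, Nat.beq_eq, eE, Nat.add_eq, Nat.sub_eq] at h
  obtain ⟨⟨h1, h2⟩, ⟨h3, h4, h5⟩, h6, h7⟩ := h
  have h1 := Nat.le_of_ble_eq_true h1
  have w : ∀ a, ∃ y, a < x.m - 1 → ee c r θ 11520 y ∈ P ∧ (lo x (a + 1) : ℝ) ≤ y ∧
      y ≤ hi x (a + 1) := fun a => by
    by_cases k : a < x.m - 1
    · obtain ⟨i1, i2, i3⟩ := h6 a k
      obtain ⟨y, j1, -, -, j2, j3⟩ := get_win hL i3
      exact ⟨y, fun _ => ⟨j1, (Nat.cast_le.2 (Nat.le_of_ble_eq_true i1)).trans j2,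
        j3.le.trans (Nat.cast_le.2 (Nat.le_of_ble_eq_true i2))⟩⟩
    · exact ⟨0, fun v => absurd v k⟩
  choose g hg using w
  have := leaf (c := c) (θ := θ) C.hr P x
    (fun a => if a = 0 then 0 else if a = x.m then 11520 else g (a - 1))
    (by subst hx; exact ht h1) h7 (by subst hx; show 0 < 11520; omega)
    (by subst hx; show 0 < 10000; omega) (by rw [eU]; exact C.hP) rfl
    (by rw [if_neg (by omega), if_pos rfl, eU]) (fun a ha => by
      rw [eU]
      split_ifs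
      exacts [C.h0, by have := C.h0; rwa [← ee_add (by norm_num) 0, zero_add] at this,
        (hg _ (by omega)).1]) (fun a ha => by
      split_ifs with u v
      · rw [u, h3]
        exact ⟨by simp, Nat.cast_nonneg _⟩
      · rw [v]
        exact ⟨by exact_mod_cast Nat.le_of_ble_eq_true h4, by
          exact_mod_cast Nat.le_of_ble_eq_true h5⟩
      · have := (hg (a - 1) (by omega)).2
        rwa [show a - 1 + 1 = a by omega] at this)
    (by rw [eE]; exact (srt_le E _ h2).2) (by rw [eE, eU]; exact fun a ha => (hE a ha).1)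
    (Or.inl (by rw [← hx])) (fun y z hy _ y0 yz z1 _ => by
      rw [eU] at *
      have := (shi_gn E 0 y z hE h2 y0 yz.le z1).2 hy (by linarith)
      rw [eE, eH]
      unfold gn at this
      linarith)
  subst hx
  simpa using this

theorem allT_ok (TP : Ls) (h : allT TP = true) : ∀ a ∈ TP, topOK a.1 a.2.1 = true := by
  induction TP with
  | nil => exact fun _ h => absurd h List.not_mem_nil
  | cons a E ih => exact List.forall_mem_cons.2 ⟨(band_iff.1 h).1, ih (band_iff.1 h).2⟩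

theorem chk_ok (C : Cf c r θ P) (hT : allT TP = true) (t : Tr) : ∀ E Ws,
    EI {y | ee c r θ 11520 y ∈ P} E → (∀ a ∈ Ws, Win {y | ee c r θ 11520 y ∈ P} a.1 a.2.1) →
    chk cn PC TP t E Ws = true → planeDilation P ≤ ENNReal.ofReal (cn / 10000) := by
  induction t with
  | q p q _ _ ih1 ih2 =>
    intro E Ws hE hW h
    obtain ⟨h1, h2⟩ := band_iff.1 h
    by_cases k : Win {y | ee c r θ 11520 y ∈ P} p q
    · exact ih1 _ _ hE (List.forall_mem_cons.2 ⟨k, hW⟩) h1
    · obtain ⟨L, i, j⟩ := insK_ok E p q _ hE (fun y hy y0 y1 => by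
        by_contra v
        push Not at v
        exact k ⟨y, hy, y0, y1, v⟩) h2
      exact ih2 _ _ i hW j
  | c i j =>
    intro E Ws hE hW h
    obtain ⟨a, b, ⟨y, hy, y0, y1, y2, y3⟩, h⟩ := win_ok hE hW h
    simp only [bor_iff, band_iff, Nat.ble_eq, Nat.add_eq, ← Nat.cast_le (α := ℝ), Nat.cast_add,
      Nat.cast_ofNat] at h
    exfalso
    rcases h with h | ⟨h1, h2⟩
    · linarith
    obtain ⟨w, w0, w1, w2⟩ := C.gap y (getE E j).1 hy y1
    rcases getE_mem E j with e | e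
    · rw [e] at h2
      simp only [Nat.cast_zero] at h2
      linarith
    · rcases (hE _ e).1 w w0 ((Nat.cast_nonneg _).trans w1) (by linarith) with u | u <;> linarith
  | f z =>
    intro E Ws hE hW h
    change lfc cn PC TP z E Ws = true at h
    rw [lfc, frc_eq, frc_eq, frc_eq, frc_eq] at h
    obtain ⟨L, s, i, h⟩ := wins_ok hE hW _ _ _ (fun _ h => absurd h List.not_mem_nil) h
    rw [frc_eq, frc_eq] at h
    refine lfB_ok C (fun k => ?_) hE i h
    rcases getE_mem TP (Nat.mod z 1024) with e | e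
    · rw [e] at k
      exact absurd k (by decide)
    · exact allT_ok TP hT _ e

theorem chain_ok (C : Cf c r θ P) (hT : allT TP = true) {e : ℕ} (L : List (ℕ × Tr)) : ∀ q,
    chain cn PC TP L e q = true → Emp {y | ee c r θ 11520 y ∈ P} q 11520 →
    planeDilation P ≤ ENNReal.ofReal (cn / 10000) ∨ Emp {y | ee c r θ 11520 y ∈ P} e 11520 := by
  induction L with
  | nil =>
    intro q h k
    exact Or.inr fun y hy y0 y1 => (k y hy y0 y1).imp_left fun v =>
      v.trans_le (Nat.cast_le.2 (Nat.le_of_ble_eq_true h))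
  | cons a L ih =>
    intro q h k
    obtain ⟨h1, h2⟩ := band_iff.1 h
    by_cases w : Win {y | ee c r θ 11520 y ∈ P} a.1 q
    · rcases cnd_or (p := (· = true)) h1 with ⟨-, h1⟩ | ⟨-, h1⟩
      · exact Or.inl (chk_ok C hT _ _ _ (fun _ h => absurd h List.not_mem_nil)
          (List.forall_mem_singleton.2 w) h1)
      obtain ⟨E, i, j⟩ := insK_ok [] _ _ _ (fun _ h => absurd h List.not_mem_nil) k h1
      exact Or.inl (chk_ok C hT _ _ _ i (List.forall_mem_singleton.2 w) j)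
    · refine ih _ h2 fun y hy y0 y1 => Or.inl (not_le.1 fun v => w ⟨y, hy, y0, y1, v, ?_⟩)
      exact (k y hy y0 y1).resolve_right (by simpa using y1)

theorem ee_per {U : ℝ} (hU : 0 < U) (x : ℝ) (k : ℤ) : ee c r θ U (x - k * U) = ee c r θ U x := by
  have : θ + 2 * π * (x - k * U) / U = θ + 2 * π * x / U - k * (2 * π) := by field_simp; ring
  simp only [ee, this, cos_sub_int_mul_two_pi, sin_sub_int_mul_two_pi]

theorem ee_mod {U : ℝ} (hU : 0 < U) (x : ℝ) :
    ∃ y, 0 ≤ y ∧ y < U ∧ ee c r θ U y = ee c r θ U x :=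
  ⟨x - ⌊x / U⌋ * U, Int.sub_floor_div_mul_nonneg x hU, Int.sub_floor_div_mul_lt x hU,
    ee_per hU x _⟩

theorem ee_on {U : ℝ} (hU : 0 < U) {p : Pt} (h : dist p c = r) :
    ∃ y, 0 ≤ y ∧ y < U ∧ ee c r θ U y = p := by
  let z : ℂ := ⟨p 0 - c 0, p 1 - c 1⟩
  have n : ‖z‖ = r := by
    rw [← h, EuclideanSpace.dist_eq, Fin.sum_univ_two, Complex.norm_eq_sqrt_sq_add_sq]
    simp [z, Real.dist_eq]
  obtain ⟨y, h0, h1, h2⟩ := ee_mod (c := c) (r := r) (θ := θ) hU ((z.arg - θ) * U / (2 * π))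
  refine ⟨y, h0, h1, h2.trans ?_⟩
  have e : θ + 2 * π * ((z.arg - θ) * U / (2 * π)) / U = z.arg := by field_simp; ring
  have a := Complex.norm_mul_cos_arg z
  have b := Complex.norm_mul_sin_arg z
  rw [n] at a b
  ext i
  fin_cases i <;> simp [ee, e, a, b, z]

theorem cf_ex (hr : 0 < r) (hP : ∀ p ∈ P, dist p c = r) (hne : P.Nonempty) : ∃ θ, Cf c r θ P := by
  have hU : (0 : ℝ) < 11520 := by norm_num
  let Q : ℝ → Prop := fun x => ee c r 0 11520 x ∈ P
  have sh : ∀ x (k : ℤ), Q x → Q (x - k * 11520) := fun x k h => by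
    show ee c r 0 11520 _ ∈ P
    rwa [ee_per hU]
  have fin : ∀ a, {x | Q x ∧ a ≤ x ∧ x < a + 11520}.Finite := fun a =>
    Set.Finite.of_injOn (f := ee c r 0 11520) (t := (P : Set Pt)) (fun x hx => hx.1)
      (fun x hx y hy e => by_contra fun v => (lt_or_gt_of_ne v).elim
        (fun w => ee_inj hr hU w (by linarith [hx.2.1, hy.2.2]) e)
        fun w => ee_inj hr hU w (by linarith [hy.2.1, hx.2.2]) e.symm) P.finite_toSet
  have red : ∀ a x : ℝ, ∃ k : ℤ, a ≤ x - k * 11520 ∧ x - k * 11520 < a + 11520 := fun a x =>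
    ⟨⌊(x - a) / 11520⌋, by linarith [Int.sub_floor_div_mul_nonneg (x - a) hU],
      by linarith [Int.sub_floor_div_mul_lt (x - a) hU]⟩
  have ne : ∀ a, {x | Q x ∧ a ≤ x ∧ x < a + 11520}.Nonempty := fun a => by
    obtain ⟨p, hp⟩ := hne
    obtain ⟨y, -, -, e⟩ := ee_on (θ := 0) hU (hP p hp)
    obtain ⟨k, hk⟩ := red a y
    exact ⟨_, sh y k (show ee c r 0 11520 y ∈ P from e ▸ hp), hk⟩
  have pv : ∀ z, ∃ y, Q y ∧ z - 11520 ≤ y ∧ y < z ∧ ∀ x, Q x → x < z → x ≤ y := fun z => by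
    obtain ⟨y, ⟨h1, h2, h3⟩, h4⟩ := Set.exists_max_image _ id (fin (z - 11520)) (ne _)
    exact ⟨y, h1, h2, by linarith, fun x i j => (le_total x (z - 11520)).elim (fun k => k.trans h2)
      fun k => h4 x ⟨i, k, by linarith⟩⟩
  choose p p1 p2 p3 p4 using pv
  obtain ⟨z, ⟨z1, -, -⟩, z2⟩ := Set.exists_max_image _ (fun z => z - p z) (fin 0) (ne 0)
  have e : ∀ x, ee c r (2 * π * z / 11520) 11520 x = ee c r 0 11520 (x + z) := fun x => by
    simp only [ee, show 2 * π * z / 11520 + 2 * π * x / 11520 = 0 + 2 * π * (x + z) / 11520 by ring]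
  refine ⟨2 * π * z / 11520, hr, fun q hq => ee_on hU (hP q hq), by rwa [e, zero_add],
    fun y t hy y1 => ?_⟩
  rw [e] at hy
  have i1 := p4 z _ (sh _ 1 hy) (by push_cast; linarith)
  obtain ⟨w, ⟨w1, w2, w3⟩, w4⟩ := Set.exists_min_image _ id (fin (t + z)) (ne _)
  obtain ⟨k, k1, k2⟩ := red 0 w
  have i2 := z2 _ ⟨sh w k w1, k1, k2⟩
  refine ⟨w - z, by rwa [e, sub_add_cancel], by linarith, not_le.1 fun v => ?_⟩
  have i3 := p3 (w - k * 11520)
  have := w4 _ ⟨sh _ (-k) (p1 (w - k * 11520)), by push_cast at *; linarith,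
    by push_cast; linarith⟩
  simp only [id] at this
  push_cast at this
  linarith

theorem conc (hr : 0 < r) (hP : ∀ p ∈ P, dist p c = r)
    (h : ∀ θ, Cf c r θ P → Emp {y | ee c r θ 11520 y ∈ P} 11520 11520 →
      planeDilation P ≤ ENNReal.ofReal (cn / 10000) ∨ Emp {y | ee c r θ 11520 y ∈ P} 0 11520) :
    planeDilation P ≤ ENNReal.ofReal (cn / 10000) := by
  rcases P.eq_empty_or_nonempty with rfl | hne
  · exact geo (c := c) (θ := 0) (U := 1) hr one_pos ∅ (fun _ _ => False) (by simp) (by simp)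
      (by simp) (by simp)
  obtain ⟨θ, C⟩ := cf_ex hr hP hne
  refine (h θ C fun y _ _ y1 => Or.inl (by simpa using y1)).resolve_right fun v => ?_
  rcases v 0 C.h0 le_rfl (by norm_num) with u | u <;> norm_num at u

end Pool.Agent.MP_8fe08c_co.h66
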