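import Mathlib
import Pool.Agent.MP_8fe08c_co.h31.Defs

/-! Points on a circle: non-crossing chords give plane graphs. -/

set_option autoImplicit false

namespace Pool.Agent.MP_8fe08c_co.h66

open Real h31

/-- the point of the circle at position `x`, the full turn being `U` -/
noncomputable def ee (c : Pt) (r θ U x : ℝ) : Pt :=
  !₂[c 0 + r * cos (θ + 2 * π * x / U), c 1 + r * sin (θ + 2 * π * x / U)]

/-- chord length on the unit circle -/
noncomputable def ch (U x : ℝ) : ℝ := 2 * sin (π * x / U)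

theorem ch_nonneg {U x : ℝ} (hU : 0 < U) (h0 : 0 ≤ x) (h1 : x ≤ U) : 0 ≤ ch U x := by
  refine mul_nonneg two_pos.le (sin_nonneg_of_nonneg_of_le_pi (by positivity) ?_)
  rw [div_le_iff₀ hU]
  exact mul_le_mul_of_nonneg_left h1 pi_pos.le

theorem ch_pos {U x : ℝ} (hU : 0 < U) (h0 : 0 < x) (h1 : x < U) : 0 < ch U x := by
  refine mul_pos two_pos (sin_pos_of_pos_of_lt_pi (by positivity) ?_)
  rw [div_lt_iff₀ hU]
  exact mul_lt_mul_of_pos_left h1 pi_pos

theorem ch_zero (U : ℝ) : ch U 0 = 0 := by simp [ch]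

theorem ch_symm {U : ℝ} (hU : 0 < U) (x : ℝ) : ch U (U - x) = ch U x := by
  rw [ch, ch, ← sin_pi_sub]
  congr 2
  field_simp
  ring

theorem ch_neg (U x : ℝ) : ch U (-x) = -ch U x := by
  simp [ch, neg_div]

theorem ee_add {c : Pt} {r θ U : ℝ} (hU : 0 < U) (x : ℝ) : ee c r θ U (x + U) = ee c r θ U x := by
  have : θ + 2 * π * (x + U) / U = θ + 2 * π * x / U + 2 * π := by field_simp; ring
  simp only [ee, this, cos_add_two_pi, sin_add_two_pi]

theorem dist_ee {c : Pt} {r θ U x y : ℝ} (hr : 0 < r) (hU : 0 < U) (h0 : x ≤ y) (h1 : y ≤ x + U) :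
    dist (ee c r θ U x) (ee c r θ U y) = r * ch U (y - x) := by
  have h2 := ch_nonneg hU (x := y - x) (by linarith) (by linarith)
  rw [EuclideanSpace.dist_eq, Fin.sum_univ_two, sqrt_eq_iff_mul_self_eq (by positivity)
    (by positivity)]
  simp only [ee, PiLp.toLp_apply, Matrix.cons_val_zero, Matrix.cons_val_one, Real.dist_eq, sq_abs, ch]
  have e : θ + 2 * π * y / U = θ + 2 * π * x / U + 2 * (π * (y - x) / U) := by ring
  rw [e]
  generalize θ + 2 * π * x / U = a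
  generalize π * (y - x) / U = d
  rw [cos_add, sin_add, cos_two_mul, sin_two_mul]
  have h3 := sin_sq_add_cos_sq a
  have h4 := sin_sq_add_cos_sq d
  have h5 : cos d ^ 2 = 1 - sin d ^ 2 := by linarith
  have h6 : (2 * cos d ^ 2 - 1) = 1 - 2 * sin d ^ 2 := by linarith
  rw [h6]
  linear_combination (4 * r ^ 2 * sin d ^ 2 * (sin d ^ 2 + cos d ^ 2)) * h3 +
    (4 * r ^ 2 * sin d ^ 2) * h4

/-- the side of the line through `p` and `q` -/
def sd (p q z : Pt) : ℝ := (z 0 - p 0) * (q 1 - p 1) - (z 1 - p 1) * (q 0 - p 0)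

theorem sd_ee (c : Pt) (r θ U a b z : ℝ) : sd (ee c r θ U a) (ee c r θ U b) (ee c r θ U z) =
    r ^ 2 * ch U (b - a) * (ch U (z - a) * ch U (b - z)) / 2 := by
  simp only [sd, ee, PiLp.toLp_apply, Matrix.cons_val_zero, Matrix.cons_val_one, ch]
  have e1 : θ + 2 * π * z / U = θ + 2 * π * a / U + 2 * (π * (z - a) / U) := by ring
  have e2 : θ + 2 * π * b / U = θ + 2 * π * a / U + 2 * (π * (z - a) / U + π * (b - z) / U) := by
    ring
  have e3 : π * (b - a) / U = π * (z - a) / U + π * (b - z) / U := by ring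
  rw [e1, e2, e3]
  generalize θ + 2 * π * a / U = t
  generalize π * (z - a) / U = x
  generalize hw : x + π * (b - z) / U = w
  have e4 : π * (b - z) / U = w - x := by linarith
  rw [e4, cos_add, sin_add, cos_add, sin_add, cos_two_mul, sin_two_mul, cos_two_mul, sin_two_mul,
    sin_sub]
  have h3 := sin_sq_add_cos_sq t
  have h4 : 2 * cos x ^ 2 - 1 = 1 - 2 * sin x ^ 2 := by linarith [sin_sq_add_cos_sq x]
  have h5 : 2 * cos w ^ 2 - 1 = 1 - 2 * sin w ^ 2 := by linarith [sin_sq_add_cos_sq w]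
  rw [h4, h5]
  linear_combination (4 * r ^ 2 * sin w * sin x * (sin w * cos x - cos w * sin x)) * h3

theorem sd_seg (p q : Pt) {a b z : Pt} (h : z ∈ segment ℝ a b) :
    ∃ s t : ℝ, 0 ≤ s ∧ 0 ≤ t ∧ s + t = 1 ∧ z = s • a + t • b ∧
      sd p q z = s * sd p q a + t * sd p q b := by
  obtain ⟨s, t, hs, ht, hst, rfl⟩ := h
  refine ⟨s, t, hs, ht, hst, rfl, ?_⟩
  simp only [sd, PiLp.add_apply, PiLp.smul_apply, smul_eq_mul]
  linear_combination (p 0 * (q 1 - p 1) - p 1 * (q 0 - p 0)) * hst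

theorem sd_zero {p q z : Pt} (h : z ∈ segment ℝ p q) : sd p q z = 0 := by
  obtain ⟨s, t, -, -, -, -, h⟩ := sd_seg p q h
  rw [h]
  simp only [sd]
  ring

theorem sep {p q a b z : Pt} {σ : ℝ} (ha : a = p ∨ a = q ∨ 0 < σ * sd p q a)
    (hb : b = p ∨ b = q ∨ 0 < σ * sd p q b) (hab : a ≠ b) (hne : s(p, q) ≠ s(a, b))
    (h1 : z ∈ segment ℝ p q) (h2 : z ∈ segment ℝ a b) :
    (z = p ∨ z = q) ∧ (z = a ∨ z = b) := by
  have h0 := sd_zero h1
  obtain ⟨s, t, hs, ht, hst, hz, h3⟩ := sd_seg p q h2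
  have zp : sd p q p = 0 := sd_zero (left_mem_segment ℝ p q)
  have zq : sd p q q = 0 := sd_zero (right_mem_segment ℝ p q)
  have key : ∀ {a b : Pt} {s t : ℝ}, (a = p ∨ a = q ∨ 0 < σ * sd p q a) → 0 < σ * sd p q b →
      0 ≤ s → 0 ≤ t → s + t = 1 → z = s • a + t • b → 0 = s * sd p q a + t * sd p q b →
      z = a ∧ (z = p ∨ z = q) := by
    intro a b s t ha hb hs ht hst hz h
    have h4 : 0 ≤ σ * sd p q a := by
      rcases ha with rfl | rfl | ha
      · rw [zp, mul_zero]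
      · rw [zq, mul_zero]
      · exact ha.le
    have h5 : s * (σ * sd p q a) + t * (σ * sd p q b) = 0 := by linear_combination -σ * h
    have h6 : t = 0 := by nlinarith [mul_nonneg hs h4]
    have h7 : s = 1 := by linarith
    subst h6 h7
    have h8 : z = a := by simpa using hz
    refine ⟨h8, ?_⟩
    rcases ha with ha | ha | ha
    · exact Or.inl (h8.trans ha)
    · exact Or.inr (h8.trans ha)
    · exfalso; linarith
  rw [h0] at h3
  by_cases hb' : 0 < σ * sd p q b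
  · obtain ⟨h4, h5⟩ := key ha hb' hs ht hst hz h3
    exact ⟨h5, Or.inl h4⟩
  by_cases ha' : 0 < σ * sd p q a
  · obtain ⟨h4, h5⟩ := key hb ha' ht hs (by linarith) (by rw [hz, add_comm]) (by linarith)
    exact ⟨h5, Or.inr h4⟩
  exfalso
  rcases ha with rfl | rfl | ha
  · rcases hb with rfl | rfl | hb
    exacts [hab rfl, hne rfl, hb' hb]
  · rcases hb with rfl | rfl | hb
    exacts [hne Sym2.eq_swap, hab rfl, hb' hb]
  · exact ha' ha

/-- what the distances of the graph satisfy; `D x y t` means a walk of length at most `t` -/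
structure Ax (U : ℝ) (Q : Set ℝ) (B : ℝ → ℝ → Prop) (D : ℝ → ℝ → ℝ → Prop) : Prop where
  fin : (Q ∩ Set.Icc 0 U).Finite
  refl : ∀ x ∈ Q, D x x 0
  symm : ∀ x y t, D x y t → D y x t
  trans : ∀ x y z s t, D x y s → D y z t → D x z (s + t)
  mono : ∀ x y s t, D x y s → s ≤ t → D x y t
  per : 0 ∈ Q → D 0 U 0
  edge : ∀ x y, B x y → D x y (ch U (y - x))
  cons : ∀ x ∈ Q, ∀ y ∈ Q, 0 ≤ x → x < y → y ≤ U → (∀ z ∈ Q, ¬ (x < z ∧ z < y)) →
    D x y (ch U (y - x))

section main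

variable {c : Pt} {r θ U : ℝ}

theorem ee_inj (hr : 0 < r) (hU : 0 < U) {x y : ℝ} (h0 : x < y) (h1 : y < x + U) :
    ee c r θ U x ≠ ee c r θ U y := by
  rw [← dist_pos, dist_ee hr hU h0.le h1.le]
  exact mul_pos hr (ch_pos hU (by linarith) (by linarith))

theorem side (hr : 0 < r) (hU : 0 < U) {a b z : ℝ} (ha : 0 ≤ a) (hab : a < b) (hb : b ≤ U)
    (hne : ee c r θ U a ≠ ee c r θ U b) (hz0 : 0 ≤ z) (hz1 : z ≤ U) :
    (a ≤ z → z ≤ b → ee c r θ U z = ee c r θ U a ∨ ee c r θ U z = ee c r θ U b ∨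
      0 < 1 * sd (ee c r θ U a) (ee c r θ U b) (ee c r θ U z)) ∧
    (z ≤ a ∨ b ≤ z → ee c r θ U z = ee c r θ U a ∨ ee c r θ U z = ee c r θ U b ∨
      0 < -1 * sd (ee c r θ U a) (ee c r θ U b) (ee c r θ U z)) := by
  have h1 : b < a + U := by
    refine lt_of_le_of_ne (by linarith) fun h => hne ?_
    rw [h, ee_add hU]
  have h2 := ch_pos hU (x := b - a) (by linarith) (by linarith)
  have key : ∀ w, b ≤ w → w ≤ a + U → ee c r θ U w = ee c r θ U a ∨ ee c r θ U w = ee c r θ U b ∨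
      0 < -1 * sd (ee c r θ U a) (ee c r θ U b) (ee c r θ U w) := by
    intro w h3 h4
    rcases h3.eq_or_lt with rfl | h3
    · exact Or.inr (Or.inl rfl)
    rcases h4.eq_or_lt with rfl | h4
    · exact Or.inl (ee_add hU a)
    refine Or.inr (Or.inr ?_)
    have h5 := ch_pos hU (x := w - a) (by linarith) (by linarith)
    have h6 := ch_pos hU (x := w - b) (by linarith) (by linarith)
    rw [sd_ee, ← neg_sub w b, ch_neg]
    have : 0 < r ^ 2 * ch U (b - a) * (ch U (w - a) * ch U (w - b)) := by positivity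
    linarith
  refine ⟨fun h3 h4 => ?_, fun h => ?_⟩
  · rcases h3.eq_or_lt with rfl | h3
    · exact Or.inl rfl
    rcases h4.eq_or_lt with rfl | h4
    · exact Or.inr (Or.inl rfl)
    refine Or.inr (Or.inr ?_)
    have h5 := ch_pos hU (x := z - a) (by linarith) (by linarith)
    have h6 := ch_pos hU (x := b - z) (by linarith) (by linarith)
    rw [sd_ee]
    positivity
  · rcases h with h | h
    · rw [← ee_add hU z]
      exact key _ (by linarith) (by linarith)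
    · exact key _ h (by linarith)

theorem wl_append {P : Finset Pt} {G : SimpleGraph P} {u v w : P} (p : G.Walk u v)
    (q : G.Walk v w) : walkLength (p.append q) = walkLength p + walkLength q := by
  simp [walkLength, SimpleGraph.Walk.darts_append]

theorem wl_reverse {P : Finset Pt} {G : SimpleGraph P} {u v : P} (p : G.Walk u v) :
    walkLength p.reverse = walkLength p := by
  induction p with
  | nil => rfl
  | cons h p ih =>
    rw [SimpleGraph.Walk.reverse_cons, wl_append, ih]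
    simp [walkLength, dist_comm, add_comm]

theorem geo (hr : 0 < r) (hU : 0 < U) (P : Finset Pt) (B : ℝ → ℝ → Prop) {κ : ℝ}
    (hP : ∀ p ∈ P, ∃ x, 0 ≤ x ∧ x < U ∧ ee c r θ U x = p)
    (hB : ∀ x y, B x y → ee c r θ U x ∈ P ∧ ee c r θ U y ∈ P ∧ 0 ≤ x ∧ x < y ∧ y ≤ U)
    (hX : ∀ x y z w, B x y → B z w → ¬ (x < z ∧ z < y ∧ y < w))
    (h : ∀ D, Ax U {x | ee c r θ U x ∈ P} B D → ∀ x y, ee c r θ U x ∈ P → ee c r θ U y ∈ P →
      0 ≤ x → x < y → y < U → D x y (κ * ch U (y - x))) :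
    planeDilation P ≤ ENNReal.ofReal κ := by
  classical
  set e := ee c r θ U with he
  let B' : ℝ → ℝ → Prop := fun x y => e x ∈ P ∧ e y ∈ P ∧ 0 ≤ x ∧ x < y ∧ y ≤ U ∧
    (B x y ∨ ∀ z, e z ∈ P → ¬ (x < z ∧ z < y))
  have hX' : ∀ x y z w, B' x y → B' z w → ¬ (x < z ∧ z < y ∧ y < w) := by
    rintro x y z w ⟨-, hy, -, -, -, h1⟩ ⟨hz, -, -, -, -, h2⟩ h3
    rcases h1 with h1 | h1
    · rcases h2 with h2 | h2
      · exact hX _ _ _ _ h1 h2 h3
      · exact h2 y hy ⟨h3.2.1, h3.2.2⟩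
    · exact h1 z hz ⟨h3.1, h3.2.1⟩
  let G : SimpleGraph P := SimpleGraph.fromRel fun p q => ∃ x y, B' x y ∧ e x = p ∧ e y = q
  have hG : ∀ p q : P, G.Adj p q → ∃ x y, B' x y ∧ e x ≠ e y ∧
      ((e x = p ∧ e y = q) ∨ (e x = q ∧ e y = p)) := by
    intro p q hpq
    rw [SimpleGraph.fromRel_adj] at hpq
    have hne : (p : Pt) ≠ q := fun h => hpq.1 (Subtype.ext h)
    rcases hpq.2 with ⟨x, y, h1, h2, h3⟩ | ⟨x, y, h1, h2, h3⟩
    · exact ⟨x, y, h1, by rw [h2, h3]; exact hne, Or.inl ⟨h2, h3⟩⟩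
    · exact ⟨x, y, h1, by rw [h2, h3]; exact hne.symm, Or.inr ⟨h2, h3⟩⟩
  have hsep : ∀ x y z w, B' x y → B' z w → e x ≠ e y → e z ≠ e w → s(e x, e y) ≠ s(e z, e w) →
      ∀ p, p ∈ segment ℝ (e x) (e y) → p ∈ segment ℝ (e z) (e w) →
        (p = e x ∨ p = e y) ∧ (p = e z ∨ p = e w) := by
    intro x y z w h1 h2 n1 n2 n3 p s1 s2
    have c1 := hX' _ _ _ _ h1 h2
    have c2 := hX' _ _ _ _ h2 h1
    obtain ⟨-, -, x0, xy, yU, -⟩ := h1
    obtain ⟨-, -, z0, zw, wU, -⟩ := h2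
    have sz := side hr hU x0 xy yU n1 z0 (by linarith)
    have sw := side hr hU x0 xy yU n1 (by linarith) wU
    by_cases hin : x ≤ z ∧ w ≤ y
    · exact sep (sz.1 hin.1 (by linarith [hin.2])) (sw.1 (by linarith [hin.1]) hin.2) n2 n3 s1 s2
    · refine sep (sz.2 ?_) (sw.2 ?_) n2 n3 s1 s2
      · by_contra hc
        push Not at hc
        exact c1 ⟨hc.1, hc.2, not_le.1 fun h => hin ⟨hc.1.le, h⟩⟩
      · by_contra hc
        push Not at hc
        exact c2 ⟨not_le.1 fun h => hin ⟨h, hc.2.le⟩, hc.1, hc.2⟩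
  have hpl : IsPlane P G := by
    refine ⟨fun a b a' b' h1 h2 hne p s1 s2 => ?_, fun a b p hab hp => ?_⟩
    · have hne' : s((a : Pt), (b : Pt)) ≠ s((a' : Pt), (b' : Pt)) := fun h => hne (by
        simpa only [Sym2.eq_iff, Subtype.ext_iff] using h)
      obtain ⟨x, y, b1, n1, e1⟩ := hG _ _ h1
      obtain ⟨z, w, b2, n2, e2⟩ := hG _ _ h2
      have := hsep x y z w b1 b2 n1 n2
      have s1' := s1
      have s2' := s2
      rw [segment_symm] at s1' s2'
      rcases e1 with ⟨e1, e1'⟩ | ⟨e1, e1'⟩ <;> rcases e2 with ⟨e2, e2'⟩ | ⟨e2, e2'⟩ <;>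
        rw [e1, e1', e2, e2'] at this
      · exact this hne' p s1 s2
      · have := this (by rwa [Sym2.eq_swap (a := (b' : Pt))]) p s1 s2'
        exact ⟨this.1, this.2.symm⟩
      · have := this (by rwa [Sym2.eq_swap (a := (b : Pt))]) p s1' s2
        exact ⟨this.1.symm, this.2⟩
      · have := this (by rwa [Sym2.eq_swap (a := (b : Pt)), Sym2.eq_swap (a := (b' : Pt))]) p
          s1' s2'
        exact ⟨this.1.symm, this.2.symm⟩
    · obtain ⟨x, y, ⟨-, -, x0, xy, yU, -⟩, n1, e1⟩ := hG _ _ hab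
      obtain ⟨z, z0, zU, hz⟩ := hP p p.2
      have hp' : e z ∈ openSegment ℝ (e x) (e y) := by
        rcases e1 with ⟨e1, e1'⟩ | ⟨e1, e1'⟩ <;> rw [e1, e1', hz]
        · exact hp
        · rwa [openSegment_symm]
      have h0 := sd_zero (openSegment_subset_segment ℝ _ _ hp')
      have sz := side hr hU x0 xy yU n1 z0 zU.le
      rw [← he, h0, mul_zero, mul_zero] at sz
      have : e z = e x ∨ e z = e y ∨ (0 : ℝ) < 0 := by
        by_cases h1 : z ≤ x ∨ y ≤ z
        · exact sz.2 h1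
        · push Not at h1
          exact sz.1 h1.1.le h1.2.le
      rcases this with h1 | h1 | h1
      · rw [h1, left_mem_openSegment_iff] at hp'; exact n1 hp'
      · rw [h1, right_mem_openSegment_iff] at hp'; exact n1 hp'
      · exact lt_irrefl _ h1
  let D : ℝ → ℝ → ℝ → Prop := fun x y t => ∃ (hx : e x ∈ P) (hy : e y ∈ P)
    (w : G.Walk ⟨e x, hx⟩ ⟨e y, hy⟩), walkLength w ≤ r * t
  have hD0 : ∀ x y, e x ∈ P → e x = e y → D x y 0 := fun x y hx hxy =>
    ⟨hx, hxy ▸ hx, SimpleGraph.Walk.nil.copy rfl (Subtype.ext hxy), by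
      simp [walkLength, SimpleGraph.Walk.darts_copy]⟩
  have hD1 : ∀ x y, B' x y → D x y (ch U (y - x)) := by
    intro x y hb
    obtain ⟨hx, hy, x0, xy, yU, -⟩ := id hb
    have hd := dist_ee (c := c) (θ := θ) hr hU xy.le (by linarith)
    by_cases hxy : e x = e y
    · obtain ⟨h1, h2, w, hw⟩ := hD0 x y hx hxy
      exact ⟨h1, h2, w, by rw [← hd]; exact hw.trans (by simp)⟩
    · have : G.Adj ⟨e x, hx⟩ ⟨e y, hy⟩ := (SimpleGraph.fromRel_adj _ _ _).2
        ⟨fun h => hxy (congrArg Subtype.val h), Or.inl ⟨x, y, hb, rfl, rfl⟩⟩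
      exact ⟨hx, hy, this.toWalk, by rw [← hd]; simp [walkLength, he]⟩
  have hAx : Ax U {x | e x ∈ P} B D := by
    refine ⟨?_, fun x hx => hD0 x x hx rfl, ?_, ?_, ?_, fun h0 => hD0 _ _ h0 ?_, fun x y hb => ?_,
      fun x hx y hy x0 xy yU hz => hD1 x y ⟨hx, hy, x0, xy, yU, Or.inr hz⟩⟩
    · refine ((Set.Finite.of_injOn (s := {x | e x ∈ P} ∩ Set.Ico 0 U) (t := (P : Set Pt)) (f := e)
        (fun x hx => hx.1) (fun x hx y hy hxy => ?_) P.finite_toSet).insert U).subset ?_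
      · by_contra hne
        rcases lt_or_gt_of_ne hne with h1 | h1
        · exact ee_inj hr hU h1 (by linarith [hx.2.1, hy.2.2]) hxy
        · exact ee_inj hr hU h1 (by linarith [hy.2.1, hx.2.2]) hxy.symm
      · rintro x ⟨h1, h2, h3⟩
        rcases h3.eq_or_lt with h3 | h3
        exacts [Or.inl h3, Or.inr ⟨h1, h2, h3⟩]
    · rintro x y t ⟨hx, hy, w, hw⟩
      exact ⟨hy, hx, w.reverse, by rwa [wl_reverse]⟩
    · rintro x y z s t ⟨hx, hy, w, hw⟩ ⟨_, hz, w', hw'⟩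
      exact ⟨hx, hz, w.append w', by rw [wl_append]; linarith⟩
    · rintro x y s t ⟨hx, hy, w, hw⟩ hst
      exact ⟨hx, hy, w, hw.trans (mul_le_mul_of_nonneg_left hst hr.le)⟩
    · rw [he, ← ee_add hU 0, zero_add]
    · obtain ⟨h1, h2, h3, h4, h5⟩ := hB x y hb
      exact hD1 x y ⟨h1, h2, h3, h4, h5, Or.inl hb⟩
  have hfin : ∀ u v : P, u ≠ v → ∃ w : G.Walk u v, walkLength w ≤ κ * dist (u : Pt) v := by
    have key : ∀ x y (hx : e x ∈ P) (hy : e y ∈ P), 0 ≤ x → x < y → y < U →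
        ∃ w : G.Walk ⟨e x, hx⟩ ⟨e y, hy⟩, walkLength w ≤ κ * dist (e x) (e y) := by
      intro x y hx hy x0 xy yU
      obtain ⟨_, _, w, hw⟩ := h D hAx x y hx hy x0 xy yU
      have hd : dist (e x) (e y) = r * ch U (y - x) := dist_ee hr hU xy.le (by linarith)
      exact ⟨w, by rw [hd]; linarith⟩
    rintro ⟨u, hu⟩ ⟨v, hv⟩ huv
    obtain ⟨x, x0, xU, rfl⟩ := hP u hu
    obtain ⟨y, y0, yU, rfl⟩ := hP v hv
    rcases lt_trichotomy x y with h1 | h1 | h1
    · exact key x y hu hv x0 h1 yU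
    · exact absurd (by subst h1; rfl) huv
    · obtain ⟨w, hw⟩ := key y x hv hu y0 h1 xU
      exact ⟨w.reverse, by rw [wl_reverse, dist_comm]; exact hw⟩
  refine iInf_le_of_le G (iInf_le_of_le hpl ?_)
  refine iSup_le fun u => iSup_le fun v => iSup_le fun huv => ?_
  obtain ⟨w, hw⟩ := hfin u v huv
  refine ENNReal.div_le_of_le_mul ((iInf_le _ w).trans ?_)
  rw [edist_dist, ← ENNReal.ofReal_mul' dist_nonneg]
  exact ENNReal.ofReal_le_ofReal hw

end main

end Pool.Agent.MP_8fe08c_co.h66
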