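import Pool.Agent.MP_8fe08c_co.h66.Top
import Pool.Agent.MP_8fe08c_co.h66.Reg0
import Pool.Agent.MP_8fe08c_co.h66.Reg1
import Pool.Agent.MP_8fe08c_co.h66.Reg2
import Pool.Agent.MP_8fe08c_co.h66.Reg3

/-! Regular polygons and dense sets on a circle. -/

set_option autoImplicit false

namespace Pool.Agent.MP_8fe08c_co.h66

open Real h31

variable {c : Pt} {r θ : ℝ}

theorem ee_int {U : ℝ} (hU : 0 < U) (x : ℝ) (k : ℤ) : ee c r θ U (x - k * U) = ee c r θ U x := by
  have : θ + 2 * π * (x - k * U) / U = θ + 2 * π * x / U - k * (2 * π) := by field_simp; ring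
  simp only [ee, this, cos_sub_int_mul_two_pi, sin_sub_int_mul_two_pi]

theorem ee_red {U : ℝ} (hU : 0 < U) (x : ℝ) :
    ∃ y, 0 ≤ y ∧ y < U ∧ ee c r θ U y = ee c r θ U x :=
  ⟨x - ⌊x / U⌋ * U, Int.sub_floor_div_mul_nonneg x hU, Int.sub_floor_div_mul_lt x hU,
    ee_int hU x _⟩

theorem ee_ex {U : ℝ} (hU : 0 < U) {p : Pt} (h : dist p c = r) :
    ∃ y, 0 ≤ y ∧ y < U ∧ ee c r θ U y = p := by
  let z : ℂ := ⟨p 0 - c 0, p 1 - c 1⟩
  have n : ‖z‖ = r := by
    rw [← h, EuclideanSpace.dist_eq, Fin.sum_univ_two, Complex.norm_eq_sqrt_sq_add_sq]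
    simp [z, Real.dist_eq]
  obtain ⟨y, h0, h1, h2⟩ := ee_red (c := c) (r := r) (θ := θ) hU ((z.arg - θ) * U / (2 * π))
  refine ⟨y, h0, h1, h2.trans ?_⟩
  have e : θ + 2 * π * ((z.arg - θ) * U / (2 * π)) / U = z.arg := by field_simp; ring
  have a := Complex.norm_mul_cos_arg z
  have b := Complex.norm_mul_sin_arg z
  rw [n] at a b
  ext i
  fin_cases i <;> simp [ee, e, a, b, z]

theorem latB_ok (hr : 0 < r) {n m W LO PC s : ℕ} (hn : 2 ≤ n) (ht : topOK m W = true)
    (h : latB ⟨n, 1, m, Nat.add (Nat.mul (ta (tix n 2)) n) (tb (tix n 2)), W, LO, LO, PC, 14455,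
      10000, []⟩ s = true) (P : Finset Pt) (hP : ∀ p, p ∈ P ↔ ∃ k : ℕ, p = ee c r θ n k) :
    planeDilation P ≤ ENNReal.ofReal (14455 / 10000) := by
  simp only [latB, band_iff, Nat.beq_eq] at h
  obtain ⟨h1, h2, h3⟩ := h
  have n0 : (0 : ℝ) < n := by exact_mod_cast (by omega : 0 < n)
  have q : ∀ k : ℕ, ee c r θ n k ∈ P := fun k => (hP _).2 ⟨k, rfl⟩
  have md : ∀ k : ℕ, ee c r θ n (k % n : ℕ) = ee c r θ n k := fun k => by
    rw [← ee_int n0 k (k / n : ℕ)]
    congr 1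
    have := congrArg (Nat.cast (R := ℝ)) (Nat.mod_add_div' k n)
    rw [Nat.cast_add, Nat.cast_mul] at this
    rw [Int.cast_natCast]
    linarith
  have lt : ∀ k : ℕ, ((k % n : ℕ) : ℝ) < n := fun k => Nat.cast_lt.2 (Nat.mod_lt _ (by omega))
  have lat : ∀ y, ee c r θ n y ∈ P → 0 ≤ y → y < n → ∃ k : ℕ, y = k := fun y hy y0 y1 => by
    obtain ⟨k, e⟩ := (hP _).1 hy
    refine ⟨k % n, by_contra fun v => ?_⟩
    rw [← md] at e
    rcases lt_or_gt_of_ne v with w | w
    · exact ee_inj hr n0 w (by linarith [lt k]) e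
    · exact ee_inj hr n0 w (by linarith [(k % n).cast_nonneg (α := ℝ)]) e.symm
  have := leaf (c := c) (θ := θ) hr P _ (fun a => lo _ a) ht h1 (by show 0 < n; omega)
    (by show 0 < 10000; omega) (fun p hp => by
      obtain ⟨k, rfl⟩ := (hP p).1 hp
      exact ⟨_, Nat.cast_nonneg _, lt k, md k⟩) (by rw [h2]; simp) (by rw [h3]) (fun a _ => q _)
    (fun a _ => ⟨le_rfl, le_rfl⟩) (fun a ha => absurd ha List.not_mem_nil)
    (fun a ha => absurd ha List.not_mem_nil)
    (Or.inr ⟨rfl, lat⟩) (fun y w hy hw y0 yw w1 hc => by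
      dsimp only at *
      obtain ⟨k, rfl⟩ := lat y hy y0 (by linarith)
      obtain ⟨j, rfl⟩ : ∃ j : ℕ, w = j := w1.eq_or_lt.elim (fun e => ⟨n, e⟩) (lat w hw (by linarith))
      have i1 : k < j := by exact_mod_cast yw
      have i2 : ¬(k + 1 < j) := fun v => hc _ (q (k + 1))
        ⟨Nat.cast_lt.2 k.lt_succ_self, Nat.cast_lt.2 v⟩
      obtain rfl : j = k + 1 := by omega
      have := (tok (tix_le (by omega) hn)).2 n 1 n0 zero_le_one (by exact_mod_cast (by omega))
      simp only [shiR, Nat.mul_eq, Nat.add_eq]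
      push_cast
      rw [add_sub_cancel_left]
      linarith)
  simpa using this

theorem allL_ok {e : ℕ} (L : List ℕ) : ∀ a, allL L e a = true → ∀ n, a ≤ n → n < e →
    ∃ z, latt n z = true := by
  induction L with
  | nil => exact fun a h n h1 h2 => absurd (Nat.le_of_ble_eq_true h) (by omega)
  | cons z L ih =>
    intro a h n h1 h2
    obtain ⟨k1, k2⟩ := band_iff.1 h
    rw [frc_eq] at k2
    exact h1.eq_or_lt.elim (fun v => ⟨z, v ▸ k1⟩) fun v => ih _ k2 n v h2

theorem all_latt {n : ℕ} (h1 : 3 ≤ n) (h2 : n < 1946) : ∃ z, latt n z = true := by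
  by_contra h
  have k : ∀ {L e a}, allL L e a = true → a ≤ n → e ≤ n := fun v w =>
    not_lt.1 fun u => h (allL_ok _ _ v n w u)
  exact absurd (k l32 (k l31 (k l30 (k l22 (k l21 (k l20 (k l12 (k l11 (k l10 (k l02 (k l01
    (k l00 h1)))))))))))) (not_le.2 h2)

theorem wx2 : lo WX 0 = 0 ∧ lo WX 14 = 144000 ∧ hi WX 14 = 144000 := by decide +kernel

theorem dense (hr : 0 < r) (P : Finset Pt) (hP : ∀ p ∈ P, dist p c = r)
    (h0 : ee c r θ 144000 0 ∈ P) (hd : ∀ t, ∃ y, ee c r θ 144000 y ∈ P ∧ t ≤ y ∧ y ≤ t + 74) :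
    planeDilation P ≤ ENNReal.ofReal (14455 / 10000) := by
  choose g g1 g2 g3 using hd
  have h := wx_ok
  simp only [band_iff, allR_iff, Nat.beq_eq, Nat.ble_eq, Nat.add_eq] at h
  obtain ⟨⟨h1, h2⟩, h3, h4⟩ := h
  have eU : (WX.U : ℝ) = 144000 := Nat.cast_ofNat
  have := leaf (c := c) (θ := θ) hr P WX
    (fun a => if a = 0 then 0 else if a = 14 then 144000 else g (lo WX a)) h1 h2
    (by show 0 < 144000; omega) (by show 0 < 10000; omega)
    (fun p hp => ee_ex (by rw [eU]; norm_num) (hP p hp)) rfl eU.symm (fun a _ => by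
      rw [eU]
      split_ifs
      exacts [h0, by rwa [← ee_add (by norm_num) 0, zero_add] at h0, g1 _]) (fun a ha => by
      split_ifs with u v
      · rw [u, wx2.1]
        exact ⟨by simp, Nat.cast_nonneg _⟩
      · rw [v, wx2.2.1, wx2.2.2]
        simp
      · obtain ⟨b, rfl⟩ := Nat.exists_eq_succ_of_ne_zero u
        change b + 1 ≤ 14 at ha
        have := (Nat.cast_le (α := ℝ)).2 (h4 b (by omega))
        push_cast at this
        exact ⟨g2 _, (g3 _).trans this⟩)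
    (fun a ha => absurd ha List.not_mem_nil)
    (fun a ha => absurd ha List.not_mem_nil) (Or.inl rfl) (fun y w _ _ y0 yw w1 _ => by
      have := (tok (Nat.zero_le _)).2 WX.U (w - y) (by rw [eU]; norm_num) (by linarith)
        (by linarith)
      rw [ta_zero, h3] at this
      simpa [show WX.E = [] from rfl, shiR] using this)
  simpa [show WX.cn = 14455 from rfl, show WX.cd = 10000 from rfl] using this

theorem regular (hr : 0 < r) {n : ℕ} (hn : 3 ≤ n) (P : Finset Pt)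
    (hP : ∀ p, p ∈ P ↔ ∃ k : ℕ, p = ee c r θ n k) :
    planeDilation P ≤ ENNReal.ofReal (14455 / 10000) := by
  rcases lt_or_ge n 1946 with h | h
  · obtain ⟨z, hz⟩ := all_latt hn h
    simp only [latt, frc_eq] at hz
    exact latB_ok hr (by omega) (allR_iff.1 tops_ok _ (Nat.mod_lt z (by norm_num))) hz P hP
  have n0 : (1946 : ℝ) ≤ n := by exact_mod_cast h
  have q : ∀ k : ℤ, ee c r θ 144000 (k * 144000 / n) ∈ P := fun k => by
    refine (hP _).2 ⟨(k % n).toNat, ?_⟩
    have e : (((k % n).toNat : ℕ) : ℝ) = k - (k / n : ℤ) * n := by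
      rw [← Int.cast_natCast, Int.toNat_of_nonneg (Int.emod_nonneg _ (by omega)), Int.emod_def]
      push_cast
      ring
    rw [e, ee_int (by linarith)]
    simp only [ee, show 2 * π * (k * 144000 / n) / 144000 = 2 * π * k / n by field_simp]
  refine dense (c := c) (θ := θ) hr P (fun p hp => ?_) (by simpa using q 0) fun t =>
    ⟨_, q ⌈t * n / 144000⌉, ?_, ?_⟩
  · obtain ⟨k, rfl⟩ := (hP p).1 hp
    rw [EuclideanSpace.dist_eq, Fin.sum_univ_two, sqrt_eq_iff_mul_self_eq (by positivity) hr.le]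
    simp only [ee, PiLp.toLp_apply, Matrix.cons_val_zero, Matrix.cons_val_one, Real.dist_eq, sq_abs]
    linear_combination r ^ 2 * sin_sq_add_cos_sq (θ + 2 * π * k / n)
  · rw [le_div_iff₀ (by linarith)]
    linarith [Int.le_ceil (t * n / 144000)]
  · rw [div_le_iff₀ (by linarith)]
    linarith [Int.ceil_lt_add_one (t * n / 144000)]

end Pool.Agent.MP_8fe08c_co.h66
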