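import Pool.Agent.MP_8fe08c_co.h66.Tab

/-! Soundness of the path checker. -/

set_option autoImplicit false

namespace Pool.Agent.MP_8fe08c_co.h66

/-- the point `y` carries the label `l` -/
def In (m : ℕ) (Q : Set ℝ) (K : ℕ → ℝ) (l : ℕ) (y : ℝ) : Prop :=
  y ∈ Q ∧ ((∃ a ≤ m, l = 2 * a ∧ y = K a) ∨ ∃ i < m, l = 2 * i + 1 ∧ K i ≤ y ∧ y < K (i + 1))

/-- what the checker uses; `D` is the scaled distance relation -/
structure Sem (x : Cx) (Q : Set ℝ) (K : ℕ → ℝ) (D : ℝ → ℝ → ℝ → Prop) : Prop where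
  U0 : 0 < x.U
  cd0 : 0 < x.cd
  symm : ∀ y z t, D y z t → D z y t
  trans : ∀ y z w s t, D y z s → D z w t → D y w (s + t)
  mono : ∀ y z s t, D y z s → s ≤ t → D y z t
  per : D 0 x.U 0
  K0 : K 0 = 0
  Km : K x.m = x.U
  KQ : ∀ a ≤ x.m, K a ∈ Q
  Kw : ∀ a ≤ x.m, (lo x a : ℝ) ≤ K a ∧ K a ≤ hi x a
  Kl : ∀ a b, a ≤ b → b ≤ x.m → K a ≤ K b
  chord : ∀ l l' y z, In x.m Q K l y → In x.m Q K l' z → y ≤ z → bit x.W l l' = true →
    D y z (x.U * 4294967296 * ch x.U (z - y))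
  walk : ∀ y ∈ Q, ∀ z ∈ Q, 0 ≤ y → y ≤ z → z ≤ x.U → ∀ b a : ℕ, y ≤ b → a ≤ z →
    D y z (x.H * (z - y) - (shi x.E a - slo x.E b : ℕ))
  emp : ∀ a ∈ x.E, ∀ y ∈ Q, 0 ≤ y → y < x.U → y < a.1 ∨ a.2.1 ≤ y
  lat : x.e = 0 ∨ x.e = 1 ∧ ∀ y ∈ Q, 0 ≤ y → y < x.U → ∃ k : ℕ, y = k

variable {x : Cx} {Q : Set ℝ} {K : ℕ → ℝ} {D : ℝ → ℝ → ℝ → Prop}

theorem cnd_ne {b : Bool} {s : ℕ} (h : cnd b s 0 ≠ 0) : b = true ∧ s ≠ 0 := by
  cases b
  exacts [absurd rfl h, ⟨rfl, h⟩]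

theorem cnd_or {α : Type} {p : α → Prop} {b : Bool} {s t : α} (h : p (cnd b s t)) :
    b = true ∧ p s ∨ b = false ∧ p t := by
  cases b
  exacts [Or.inr ⟨rfl, h⟩, Or.inl ⟨rfl, h⟩]

theorem ble_f {a b : ℕ} (h : Nat.ble a b = false) : b < a :=
  Nat.not_le.1 (by simpa [← Nat.ble_eq] using h)

theorem beq_f {a b : ℕ} (h : Nat.beq a b = false) : a ≠ b := Nat.ne_of_beq_eq_false h

theorem both_ne {r : ℕ} {k : ℕ → ℕ} (h : both r k ≠ 0) : r ≠ 0 ∧ k r ≠ 0 := by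
  rw [both, frc_eq] at h
  rcases cnd_or (p := (· ≠ 0)) h with ⟨-, h⟩ | ⟨h1, h⟩
  exacts [absurd rfl h, ⟨beq_f h1, h⟩]

theorem fold_ne {f : ℕ → ℕ → ℕ} {n s : ℕ} (h : fold f n s ≠ 0) : ∀ j < n, ∃ t, f j t ≠ 0 := by
  induction n with
  | zero => simp
  | succ n ih =>
    obtain ⟨h1, h2⟩ := both_ne (r := fold f n s) h
    exact Nat.forall_lt_succ_right.2 ⟨ih h1, _, h2⟩

namespace Sem

theorem rng (S : Sem x Q K D) {l : ℕ} {y : ℝ} (h : In x.m Q K l y) : 0 ≤ y ∧ y ≤ x.U := by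
  rw [← S.K0, ← S.Km]
  rcases h.2 with ⟨a, h1, -, rfl⟩ | ⟨i, h1, -, h2, h3⟩
  · exact ⟨S.Kl _ _ a.zero_le h1, S.Kl _ _ h1 le_rfl⟩
  · exact ⟨(S.Kl _ _ i.zero_le h1.le).trans h2, h3.le.trans (S.Kl _ _ h1 le_rfl)⟩

theorem ordr (S : Sem x Q K D) {l l' : ℕ} {y z : ℝ} (h : In x.m Q K l y) (k : In x.m Q K l' z)
    (hl : l < l' ∨ l = l' ∧ l % 2 = 0) : y ≤ z := by
  rcases h.2 with ⟨a, h1, rfl, rfl⟩ | ⟨i, h1, rfl, h2, h3⟩ <;>
    rcases k.2 with ⟨b, k1, rfl, rfl⟩ | ⟨j, k1, rfl, k2, k3⟩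
  · exact S.Kl _ _ (by omega) k1
  · exact (S.Kl _ _ (by omega) k1.le).trans k2
  · exact h3.le.trans (S.Kl _ _ (by omega) k1)
  · exact h3.le.trans ((S.Kl _ _ (by omega) k1.le).trans k2)

theorem ord_ok (S : Sem x Q K D) {md l a b l' a' b' : ℕ} {y z : ℝ} {k : ℕ → ℕ → ℕ → ℕ → ℕ}
    (hy : In x.m Q K l y) (hz : In x.m Q K l' z) (h1 : y ≤ z) (h2 : y ≤ b) (h3 : a' ≤ z)
    (h : ord x md l a b l' a' b' k ≠ 0) :
    ∃ A N b1 b2 : ℕ, k A N b1 b2 ≠ 0 ∧ D y z (A - N + (b1 - b2) * (z - y)) := by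
  have hU : (0 : ℝ) < x.U := by exact_mod_cast S.U0
  obtain ⟨y0, -⟩ := S.rng hy
  obtain ⟨-, z1⟩ := S.rng hz
  rcases cnd_or (p := (· ≠ 0)) h with ⟨-, h⟩ | ⟨-, h⟩
  · obtain ⟨c, h⟩ := cnd_ne h
    have d := S.chord _ _ _ _ hy hz h1 c
    rw [frc_eq] at h
    rcases cnd_or (p := (· ≠ 0)) h with ⟨c, h⟩ | ⟨c, h⟩ <;> rw [frc_eq] at h
    · refine ⟨_, _, _, _, h, S.mono _ _ _ _ d ?_⟩
      have c := Nat.le_of_ble_eq_true c
      generalize (a'.add b').sub (a.add b) = e at c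
      have := (tok (tix_le S.U0 (d := (Nat.mul 2 x.U).sub e) (by
        simp only [Nat.mul_eq, Nat.sub_eq]; omega))).2 x.U (x.U - (z - y)) hU (by linarith)
        (by linarith)
      rw [ch_symm hU] at this
      simp only [Nat.mul_eq, Nat.add_eq] at this ⊢
      push_cast
      linarith
    · refine ⟨_, _, _, _, h, S.mono _ _ _ _ d ?_⟩
      have := (tok (tix_le S.U0 (ble_f c).le)).2 x.U (z - y) hU (by linarith) (by linarith)
      simp only [Nat.mul_eq]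
      push_cast
      linarith
  · refine ⟨_, _, _, _, h, S.mono _ _ _ _ (S.walk y hy.1 z hz.1 y0 h1 z1 b a' h2 h3) ?_⟩
    simp only [Nat.sub_eq, Nat.cast_zero]
    linarith

theorem stp_ok (S : Sem x Q K D) {md l a b l' a' b' : ℕ} {y z : ℝ} {k : ℕ → ℕ → ℕ → ℕ → ℕ}
    (hy : In x.m Q K l y) (hz : In x.m Q K l' z) (h0 : l = l' → l % 2 = 0 ∨ y ≤ z) (h1 : a ≤ y)
    (h2 : y ≤ b) (h3 : a' ≤ z) (h4 : z ≤ b') (h : stp x md l a b l' a' b' k ≠ 0) :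
    ∃ A N b1 b2 : ℕ, k A N b1 b2 ≠ 0 ∧ D y z (A - N + (b1 - b2) * (z - y)) := by
  rcases cnd_or (p := (· ≠ 0)) h with ⟨c, h⟩ | ⟨c, h⟩
  · refine S.ord_ok hy hz ?_ h2 h3 h
    rcases (Nat.le_of_ble_eq_true c).eq_or_lt with e | e
    · exact (h0 e).elim (fun v => S.ordr hy hz (Or.inr ⟨e, v⟩)) id
    · exact S.ordr hy hz (Or.inl e)
  · obtain ⟨A, N, b1, b2, h, d⟩ := S.ord_ok hz hy (S.ordr hz hy (Or.inl (ble_f c))) h4 h1 h
    exact ⟨A, N, b2, b1, h, S.mono _ _ _ _ (S.symm _ _ _ d) (le_of_eq (by ring))⟩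

theorem nxt_ok (S : Sem x Q K D) {jv v0 v1 d l a b : ℕ} {y v : ℝ}
    {k : ℕ → ℕ → ℕ → ℕ → ℕ → ℕ → ℕ → ℕ} (hy : In x.m Q K l y) (hv : In x.m Q K jv v)
    (h0 : l % 2 = 0 ∨ y ≤ v) (h1 : a ≤ y) (h2 : y ≤ b) (h3 : v0 ≤ v) (h4 : v ≤ v1)
    (h : nxt x jv v0 v1 d l a b k ≠ 0) :
    ∃ (l' a' b' A N b1 b2 : ℕ) (z : ℝ), k l' a' b' A N b1 b2 ≠ 0 ∧
      D y z (A - N + (b1 - b2) * (z - y)) ∧ In x.m Q K l' z ∧ a' ≤ z ∧ z ≤ b' ∧
      (l' = jv ∧ z = v ∨ l' % 2 = 0) := by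
  rw [nxt, frc_eq] at h
  rcases cnd_or (p := (· ≠ 0)) h with ⟨-, h⟩ | ⟨-, h⟩
  · obtain ⟨A, N, b1, b2, h, e⟩ := S.stp_ok hy hv (fun _ => h0) h1 h2 h3 h4 h
    exact ⟨_, _, _, A, N, b1, b2, v, h, e, hv, h3, h4, Or.inl ⟨rfl, rfl⟩⟩
  · obtain ⟨c, h⟩ := cnd_ne h
    rw [frc_eq] at h
    have c := Nat.le_of_ble_eq_true c
    have hz : In x.m Q K (Nat.mul 2 (d.div 4)) (K (d.div 4)) :=
      ⟨S.KQ _ c, Or.inl ⟨_, c, rfl, rfl⟩⟩
    have ev : Nat.mul 2 (d.div 4) % 2 = 0 := Nat.mul_mod_right _ _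
    obtain ⟨A, N, b1, b2, h, e⟩ := S.stp_ok hy hz (fun e => Or.inl (e ▸ ev)) h1 h2 (S.Kw _ c).1
      (S.Kw _ c).2 h
    exact ⟨_, _, _, A, N, b1, b2, _, h, e, hz, (S.Kw _ c).1, (S.Kw _ c).2, Or.inr ev⟩

theorem lp_ok (S : Sem x Q K D) {jv v0 v1 : ℕ} {u v c : ℝ} {fin : ℕ → ℕ → ℕ → ℕ → Bool}
    (hv : In x.m Q K jv v) (hj : jv % 2 = 1) (h3 : v0 ≤ v) (h4 : v ≤ v1) (n : ℕ) :
    ∀ (s l a b pos neg P N : ℕ) (y : ℝ), In x.m Q K l y → l % 2 = 0 → a ≤ y → y ≤ b →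
      D u y (c + pos - neg + (P - N) * y) → lp x jv v0 v1 fin n s l a b pos neg P N ≠ 0 →
      ∃ pos neg P N : ℕ, fin pos neg P N = true ∧ D u v (c + pos - neg + (P - N) * v) := by
  induction n with
  | zero => exact fun _ _ _ _ _ _ _ _ _ _ _ _ _ _ h => absurd rfl h
  | succ n ih =>
    intro s l a b pos neg P N y hy hl h1 h2 d h
    change lpB x jv v0 v1 fin (lp x jv v0 v1 fin n) s l a b pos neg P N ≠ 0 at h
    rw [lpB, frc_eq, frc_eq] at h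
    have I0 : In x.m Q K 0 0 := ⟨S.K0 ▸ S.KQ 0 x.m.zero_le, Or.inl ⟨0, x.m.zero_le, rfl, S.K0.symm⟩⟩
    have Im : In x.m Q K (Nat.mul 2 x.m) x.U :=
      ⟨S.Km ▸ S.KQ _ le_rfl, Or.inl ⟨_, le_rfl, rfl, S.Km.symm⟩⟩
    rcases cnd_or (p := (· ≠ 0)) h with ⟨-, h⟩ | ⟨-, h⟩
    · rcases cnd_or (p := (· ≠ 0)) h with ⟨e, h⟩ | ⟨-, h⟩
      · obtain rfl := Nat.eq_of_beq_eq_true e
        obtain rfl : y = 0 := le_antisymm (S.ordr hy I0 (Or.inr ⟨rfl, rfl⟩)) (S.rng hy).1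
        refine ih _ _ _ _ _ _ _ _ _ Im (Nat.mul_mod_right _ _) le_rfl le_rfl ?_ h
        exact S.mono _ _ _ _ (S.trans _ _ _ _ _ d S.per) (by simp)
      · obtain ⟨e, g⟩ := cnd_ne h
        obtain rfl := Nat.eq_of_beq_eq_true e
        obtain rfl : y = x.U := le_antisymm (S.rng hy).2 (S.ordr Im hy (Or.inr ⟨rfl, hl⟩))
        refine ih _ _ 0 0 _ _ _ _ _ I0 rfl (by simp) (by simp) ?_ g
        refine S.mono _ _ _ _ (S.trans _ _ _ _ _ d (S.symm _ _ _ S.per)) (le_of_eq ?_)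
        simp only [Nat.mul_eq, Nat.add_eq]
        push_cast
        ring
    · obtain ⟨l', a', b', A, B, b1, b2, z, h, e, hz, z1, z2, o⟩ :=
        S.nxt_ok hy hv (Or.inl hl) h1 h2 h3 h4 h
      rw [frc_eq, frc_eq] at h
      simp only [Nat.mul_eq, Nat.add_eq, Nat.sub_eq] at h
      have d' : D u z (c + (pos + A + (P + b2 - (N + b1)) * b : ℕ) -
          (neg + B + (N + b1 - (P + b2)) * a : ℕ) + (b1 - b2) * z) := by
        refine S.mono _ _ _ _ (S.trans _ _ _ _ _ d e) ?_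
        rcases le_total (P + b2) (N + b1) with w | w
        · rw [Nat.sub_eq_zero_of_le w]
          have w' : (P : ℝ) + b2 ≤ N + b1 := by exact_mod_cast w
          push_cast [Nat.cast_sub w]
          linarith [mul_le_mul_of_nonneg_left h1 (sub_nonneg.2 w')]
        · rw [Nat.sub_eq_zero_of_le w]
          have w' : (N : ℝ) + b1 ≤ P + b2 := by exact_mod_cast w
          push_cast [Nat.cast_sub w]
          linarith [mul_le_mul_of_nonneg_left h2 (sub_nonneg.2 w')]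
      rcases cnd_or (p := (· ≠ 0)) h with ⟨e, h⟩ | ⟨e, h⟩
      · have e := Nat.eq_of_beq_eq_true e
        obtain ⟨-, rfl⟩ := o.resolve_right (by omega)
        exact ⟨_, _, _, _, (cnd_ne h).1, d'⟩
      · exact ih _ _ _ _ _ _ _ _ _ hz (o.resolve_left fun w => beq_f e w.1) z1 z2 d' h

theorem ev_ok (S : Sem x Q K D) {aP aM pos neg P N u v f : ℕ} (hf : f ≤ x.U)
    (h : ev x aP aM pos neg P N u v f = true) : ((aP : ℝ) - aM) * u + pos - neg + (P - N) * v ≤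
      x.cn / x.cd * (x.U * 4294967296) * ch x.U f := by
  have h1 := (Nat.cast_le (α := ℝ)).2 (Nat.le_of_ble_eq_true h)
  have h2 := Lw_le x S.U0 S.cd0 hf
  simp only [Nat.mul_eq, Nat.add_eq] at h1
  push_cast at h1
  linarith

theorem fin_ok (S : Sem x Q K D) {u0 u1 v0 v1 f0 f1 aP aM pos neg P N : ℕ} {u v : ℝ}
    (a0 : u0 ≤ u) (a1 : u ≤ u1) (b0 : v0 ≤ v) (b1 : v ≤ v1) (c0 : f0 ≤ v - u) (c1 : v - u ≤ f1)
    (t : f1 ≤ x.U ∧ u1 ≤ v1 ∧ f1 ≤ v1 ∧ v1 - u1 ≤ f1 ∧ f0 ≤ v0 ∧ u0 ≤ v0 ∧ v0 - u0 ≤ f1)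
    (h : fin x u0 u1 v0 v1 f0 f1 aP aM pos neg P N = true) :
    ((aP : ℝ) - aM) * u + pos - neg + (P - N) * v ≤
      x.cn / x.cd * (x.U * 4294967296) * ch x.U (v - u) := by
  obtain ⟨t1, t2, t3, t4, t5, t6, t7⟩ := t
  have hU : (0 : ℝ) < x.U := by exact_mod_cast S.U0
  have hκ : (0 : ℝ) ≤ x.cn / x.cd * (x.U * 4294967296) := by positivity
  have f01 : f0 ≤ f1 := by exact_mod_cast c0.trans c1
  have r1 : (f1 : ℝ) ≤ x.U := by exact_mod_cast t1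
  rcases cnd_or (p := (· = true)) h with ⟨c, h⟩ | ⟨c, h⟩ <;>
    simp only [band_iff, frc_eq, Nat.add_eq, Nat.sub_eq] at h <;> obtain ⟨e1, e2, e3⟩ := h
  · have c : (aM : ℝ) + N ≤ aP + P := by exact_mod_cast Nat.le_of_ble_eq_true c
    have e1 := S.ev_ok (f01.trans t1) e1
    have e2 := S.ev_ok (t4.trans t1) e2
    have e3 := S.ev_ok t1 e3
    have r2 : ((v1 - u1 : ℕ) : ℝ) ≤ x.U := by exact_mod_cast t4.trans t1
    push_cast [Nat.cast_sub t2, Nat.cast_sub t3] at e1 e2 e3 r2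
    have r3 : (u1 : ℝ) ≤ v1 := by exact_mod_cast t2
    rcases le_total (v - u) (v1 - u1) with w | w
    · have := ch_conc (p := pos - neg + (aP - aM + (P - N)) * u1) (q := P - N) hU f0.cast_nonneg c0 w
        r2 hκ (by linarith) (by linarith)
      linarith [mul_le_mul_of_nonneg_left a1 (sub_nonneg.2 c)]
    · have := ch_conc (p := pos - neg + (aP - aM + (P - N)) * v1) (q := aM - aP) hU (by linarith) w c1
        r1 hκ (by linarith) (by linarith)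
      linarith [mul_le_mul_of_nonneg_left b1 (sub_nonneg.2 c)]
  · have c : (aP : ℝ) + P ≤ aM + N := by exact_mod_cast (ble_f c).le
    have e1 := S.ev_ok (f01.trans t1) e1
    have e2 := S.ev_ok (t7.trans t1) e2
    have e3 := S.ev_ok t1 e3
    have r2 : ((v0 - u0 : ℕ) : ℝ) ≤ x.U := by exact_mod_cast t7.trans t1
    push_cast [Nat.cast_sub t5, Nat.cast_sub t6] at e1 e2 e3 r2
    have r3 : (u0 : ℝ) ≤ v0 := by exact_mod_cast t6
    rcases le_total (v - u) (v0 - u0) with w | w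
    · have := ch_conc (p := pos - neg + (aP - aM + (P - N)) * v0) (q := aM - aP) hU f0.cast_nonneg c0 w
        r2 hκ (by linarith) (by linarith)
      linarith [mul_le_mul_of_nonneg_left b0 (sub_nonneg.2 c)]
    · have := ch_conc (p := pos - neg + (aP - aM + (P - N)) * u0) (q := P - N) hU (by linarith) w c1
        r1 hκ (by linarith) (by linarith)
      linarith [mul_le_mul_of_nonneg_left a0 (sub_nonneg.2 c)]

theorem tgt_ok (S : Sem x Q K D) {iu jv u0 u1 v0 v1 f0 f1 s : ℕ} {u v : ℝ}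
    (hu : In x.m Q K iu u) (hv : In x.m Q K jv v) (hj : jv % 2 = 1)
    (a0 : u0 ≤ u) (a1 : u ≤ u1) (b0 : v0 ≤ v) (b1 : v ≤ v1) (c0 : f0 ≤ v - u) (c1 : v - u ≤ f1)
    (h : tgt x iu jv u0 u1 v0 v1 f0 f1 s ≠ 0) :
    D u v (x.cn / x.cd * (x.U * 4294967296) * ch x.U (v - u)) := by
  simp only [tgt, frc_eq, mx_eq, mn_eq, Nat.add_eq, Nat.sub_eq] at h
  obtain ⟨c, h⟩ := cnd_ne h
  have c := Nat.le_of_ble_eq_true c
  have u0' : (0 : ℝ) ≤ u := u0.cast_nonneg.trans a0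
  have f0' : (0 : ℝ) ≤ v - u := f0.cast_nonneg.trans c0
  have n1 : u0 ≤ u1 := by exact_mod_cast a0.trans a1
  have n2 : v0 ≤ v1 := by exact_mod_cast b0.trans b1
  have n3 : f0 ≤ f1 := by exact_mod_cast c0.trans c1
  have n4 : u0 + f0 ≤ v1 := by exact_mod_cast (show (u0 : ℝ) + f0 ≤ v1 by linarith)
  have n5 : v0 ≤ u1 + f1 := by exact_mod_cast (show (v0 : ℝ) ≤ u1 + f1 by linarith)
  have a0' : ((max u0 (v0 - f1) : ℕ) : ℝ) ≤ u := by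
    rw [Nat.cast_max]; exact max_le a0 (sub_le' u0' (by linarith))
  have a1' : u ≤ ((min u1 (v1 - f0) : ℕ) : ℝ) := by
    rw [Nat.cast_min]; exact le_min a1 (le_trans (by linarith) (le_sub' _ _))
  have b0' : ((max v0 (u0 + f0) : ℕ) : ℝ) ≤ v := by
    push_cast; exact max_le b0 (by linarith)
  have b1' : v ≤ ((min v1 (u1 + f1) : ℕ) : ℝ) := by
    push_cast; exact le_min b1 (by linarith)
  have c0' : ((max f0 (v0 - u1) : ℕ) : ℝ) ≤ v - u := by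
    rw [Nat.cast_max]; exact max_le c0 (sub_le' f0' (by linarith))
  have c1' : v - u ≤ ((min f1 (v1 - u0) : ℕ) : ℝ) := by
    rw [Nat.cast_min]; exact le_min c1 (le_trans (by linarith) (le_sub' _ _))
  have F := fun aP aM pos neg P N => S.fin_ok (aP := aP) (aM := aM) (pos := pos) (neg := neg)
    (P := P) (N := N) a0' a1' b0' b1' c0' c1' (by omega)
  rw [pth, frc_eq, frc_eq] at h
  obtain ⟨l', a', b', A, B, b1, b2, z, h, e, hz, z1, z2, o⟩ :=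
    S.nxt_ok hu hv (Or.inr (by linarith)) a0' a1' b0' b1' h
  have d : D u z ((b2 - b1) * u + A - B + (b1 - b2) * z) := S.mono _ _ _ _ e (le_of_eq (by ring))
  rcases cnd_or (p := (· ≠ 0)) h with ⟨e, h⟩ | ⟨e, h⟩
  · have e := Nat.eq_of_beq_eq_true e
    obtain ⟨-, rfl⟩ := o.resolve_right (by omega)
    exact S.mono _ _ _ _ d (F _ _ _ _ _ _ (cnd_ne h).1)
  · obtain ⟨_, _, _, _, h, d⟩ := S.lp_ok hv hj b0' b1' _ _ _ _ _ _ _ _ _ _ hz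
      (o.resolve_left fun w => beq_f e w.1) z1 z2 d h
    exact S.mono _ _ _ _ d (F _ _ _ _ _ _ h)

theorem cl (S : Sem x Q K D) {u v : ℝ} (hu : u ∈ Q) (hv : v ∈ Q) (h0 : 0 ≤ u) (h1 : u ≤ v)
    (h2 : v < x.U) : ∀ k : ℕ, (u < k → u + x.e ≤ k) ∧ (v < k → v + x.e ≤ k) ∧
      (v - u < k → v - u + x.e ≤ k) := by
  intro k
  rcases S.lat with e | ⟨e, l⟩ <;> rw [e]
  · simpa only [Nat.cast_zero, add_zero] using ⟨le_of_lt, le_of_lt, le_of_lt⟩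
  · obtain ⟨a, rfl⟩ := l u hu h0 (by linarith)
    obtain ⟨b, rfl⟩ := l v hv (by linarith) h2
    rw [← Nat.cast_sub (by exact_mod_cast h1)]
    exact ⟨fun h => by exact_mod_cast h, fun h => by exact_mod_cast h, fun h => by exact_mod_cast h⟩

theorem inf_no (S : Sem x Q K D) {u0 u1 v0 v1 f0 f1 : ℕ} {u v : ℝ} (hu : u ∈ Q) (hv : v ∈ Q)
    (h2 : v < x.U) (a0 : u0 ≤ u) (a1 : u < u1) (b0 : v0 ≤ v) (b1 : v < v1) (c0 : f0 ≤ v - u)
    (c1 : v - u < f1) : inf x u0 u1 v0 v1 f0 f1 ≠ true := by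
  intro h
  have f0' : (0 : ℝ) ≤ v - u := f0.cast_nonneg.trans c0
  have := (S.cl hu hv (u0.cast_nonneg.trans a0) (by linarith) h2 u1).1 a1
  simp only [inf, bor_iff, Nat.ble_eq, Nat.add_eq, ← Nat.cast_le (α := ℝ), Nat.cast_add] at h
  rcases h with h | h | h | h | h <;> linarith

theorem getE_ok (S : Sem x Q K D) (a : ℕ) {y : ℝ} (hy : y ∈ Q) (h0 : 0 ≤ y) (h1 : y < x.U) :
    y < (getE x.E a).1 ∨ (getE x.E a).2.1 ≤ y := by
  have : ∀ (E : List (ℕ × ℕ × ℕ)) a, getE E a = (0, 0, 0) ∨ getE E a ∈ E := by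
    intro E
    induction E with
    | nil => exact fun _ => Or.inl rfl
    | cons b E ih =>
      intro a
      cases a with
      | zero => exact Or.inr List.mem_cons_self
      | succ a => exact (ih a).imp id (List.mem_cons_of_mem _)
  rcases this x.E a with e | e
  · rw [e]
    exact Or.inr (by simpa using h0)
  · exact S.emp _ e y hy h0 h1

theorem rg_ok (S : Sem x Q K D) {iu jv : ℕ} {u v : ℝ} (hu : In x.m Q K iu u)
    (hv : In x.m Q K jv v) (hj : jv % 2 = 1) (h2 : v < x.U) (n : ℕ) :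
    ∀ u0 u1 v0 v1 f0 f1 s : ℕ, u0 ≤ u → u < u1 → v0 ≤ v → v < v1 → f0 ≤ v - u → v - u < f1 →
      rg x iu jv n u0 u1 v0 v1 f0 f1 s ≠ 0 →
      D u v (x.cn / x.cd * (x.U * 4294967296) * ch x.U (v - u)) := by
  induction n with
  | zero => exact fun _ _ _ _ _ _ _ _ _ _ _ _ _ h => absurd rfl h
  | succ n ih =>
    intro u0 u1 v0 v1 f0 f1 s a0 a1 b0 b1 c0 c1 h
    change rgB x iu jv (rg x iu jv n) u0 u1 v0 v1 f0 f1 s ≠ 0 at h
    have u0' : (0 : ℝ) ≤ u := u0.cast_nonneg.trans a0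
    have f0' : (0 : ℝ) ≤ v - u := f0.cast_nonneg.trans c0
    have sp : ∀ c p q t : ℕ, u < p ∨ q ≤ u → v < p ∨ q ≤ v →
        spl (rg x iu jv n) c p q u0 u1 v0 v1 f0 f1 t ≠ 0 →
        D u v (x.cn / x.cd * (x.U * 4294967296) * ch x.U (v - u)) := fun c p q t o1 o2 h => by
      rcases cnd_or (p := (· ≠ 0)) h with ⟨-, h⟩ | ⟨-, h⟩ <;> obtain ⟨k1, k2⟩ := both_ne h
      · exact o1.elim (fun w => ih _ _ _ _ _ _ _ a0 w b0 b1 c0 c1 k1)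
          fun w => ih _ _ _ _ _ _ _ w a1 b0 b1 c0 c1 k2
      · exact o2.elim (fun w => ih _ _ _ _ _ _ _ a0 a1 b0 w c0 c1 k1)
          fun w => ih _ _ _ _ _ _ _ a0 a1 w b1 c0 c1 k2
    rw [rgB, frc_eq, frc_eq] at h
    rcases cnd_or (p := (· ≠ 0)) h with ⟨-, h⟩ | ⟨-, h⟩
    · have c := S.cl hu.1 hv.1 u0' (by linarith) h2
      exact S.tgt_ok hu hv hj a0 (le_trans (by linarith [(c u1).1 a1]) (le_sub' u1 x.e)) b0
        (le_trans (by linarith [(c v1).2.1 b1]) (le_sub' v1 x.e)) c0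
        (le_trans (by linarith [(c f1).2.2 c1]) (le_sub' f1 x.e)) h
    rcases cnd_or (p := (· ≠ 0)) h with ⟨-, h⟩ | ⟨-, h⟩
    · exact absurd (cnd_ne h).1 (S.inf_no hu.1 hv.1 h2 a0 a1 b0 b1 c0 c1)
    rcases cnd_or (p := (· ≠ 0)) h with ⟨-, h⟩ | ⟨-, h⟩
    · rw [frc_eq, frc_eq, frc_eq] at h
      exact sp _ _ _ _ (S.getE_ok _ hu.1 u0' (by linarith)) (S.getE_ok _ hv.1 (by linarith) h2) h
    rw [frc_eq, frc_eq] at h
    rcases cnd_or (p := (· ≠ 0)) h with ⟨-, h⟩ | ⟨-, h⟩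
    · obtain ⟨k1, k2⟩ := both_ne h
      exact (lt_or_ge (v - u) _).elim (fun w => ih _ _ _ _ _ _ _ a0 a1 b0 b1 c0 w k1)
        fun w => ih _ _ _ _ _ _ _ a0 a1 b0 b1 w c1 k2
    · exact sp _ _ _ _ (lt_or_ge _ _) (lt_or_ge _ _) h

theorem arc (S : Sem x Q K D) {y : ℝ} (h0 : 0 ≤ y) (h1 : y < x.U) :
    ∃ i < x.m, K i ≤ y ∧ y < K (i + 1) := by
  have : ∀ n, y < K n → ∃ i < n, K i ≤ y ∧ y < K (i + 1) := by
    intro n
    induction n with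
    | zero => exact fun h => absurd (S.K0 ▸ h) (not_lt.2 h0)
    | succ n ih =>
      intro h
      rcases lt_or_ge y (K n) with w | w
      · obtain ⟨i, k, r⟩ := ih w
        exact ⟨i, by omega, r⟩
      · exact ⟨n, by omega, w, h⟩
  exact this _ (S.Km ▸ h1)

theorem sound (S : Sem x Q K D) {s : ℕ} (h : leafOK x s = true) {u v : ℝ} (hu : u ∈ Q) (hv : v ∈ Q)
    (h0 : 0 ≤ u) (h1 : u < v) (h2 : v < x.U) :
    D u v (x.cn / x.cd * (x.U * 4294967296) * ch x.U (v - u)) := by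
  simp only [leafOK, band_iff, Nat.ble_eq, Nat.beq_eq, Nat.mul_eq] at h
  obtain ⟨-, ⟨p1, p2⟩, h⟩ := h
  have hU : (0 : ℝ) < x.U := by exact_mod_cast S.U0
  have w : ∀ y ∈ Q, ∀ z ∈ Q, 0 ≤ y → y ≤ z → z ≤ x.U → D y z (x.H * (z - y)) :=
    fun y hy z hz k0 k1 k2 => S.mono _ _ _ _ (S.walk y hy z hz k0 k1 k2 x.U 0 (k1.trans k2)
      (by rw [Nat.cast_zero]; linarith)) (sub_le_self _ (Nat.cast_nonneg _))
  have dir : ∀ f : ℝ, 0 ≤ f → f ≤ x.PC →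
      x.H * f ≤ x.cn / x.cd * (x.U * 4294967296) * ch x.U f := fun f k0 k1 => by
    have := ch_conc (p := 0) (q := x.H) (κ := x.cn / x.cd * (x.U * 4294967296)) hU le_rfl k0 k1
      (by exact_mod_cast p1) (by positivity) (by simp [ch_zero]) (by
        rw [zero_add]
        exact le_trans (by exact_mod_cast p2) (Lw_le x S.U0 S.cd0 p1))
    rwa [zero_add] at this
  rcases lt_or_ge (v - u) x.PC with c0 | c0
  · exact S.mono _ _ _ _ (w u hu v hv h0 h1.le h2.le) (dir _ (by linarith) c0.le)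
  rcases le_or_gt ((x.U - x.PC + 1 : ℕ) : ℝ) (v - u) with c1 | c1
  · push_cast [Nat.cast_sub p1] at c1
    have := dir (x.U - (v - u)) (by linarith) (by linarith)
    rw [ch_symm hU] at this
    refine S.mono _ _ _ _ (S.symm _ _ _ (S.trans _ _ _ _ _ (S.trans _ _ _ _ _
      (w v hv _ (S.Km ▸ S.KQ _ le_rfl) (by linarith) h2.le le_rfl) (S.symm _ _ _ S.per))
      (w 0 (S.K0 ▸ S.KQ 0 x.m.zero_le) u hu le_rfl h0 (by linarith)))) (by linarith)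
  obtain ⟨i, i1, i2, i3⟩ := S.arc h0 (h1.trans h2)
  obtain ⟨j, j1, j2, j3⟩ := S.arc (h0.trans h1.le) h2
  have ij : i < j + 1 := by
    by_contra e
    linarith [S.Kl (j + 1) i (by omega) i1.le]
  rw [pairs, frc_eq] at h
  obtain ⟨t, h⟩ := fold_ne (h.trans_ne one_ne_zero) j j1
  obtain ⟨t, h⟩ := fold_ne h i ij
  have a0 := (S.Kw i i1.le).1.trans i2
  have a1 := i3.trans_le (S.Kw (i + 1) i1).2
  have b0 := (S.Kw j j1.le).1.trans j2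
  have b1 := j3.trans_le (S.Kw (j + 1) j1).2
  rw [pair, frc_eq, frc_eq] at h
  rcases cnd_or (p := (· ≠ 0)) h with ⟨e, -⟩ | ⟨-, h⟩
  · exact absurd e (S.inf_no hu hv h2 a0 a1 b0 b1 c0 c1)
  · rw [frc_eq, frc_eq] at h
    exact S.rg_ok ⟨hu, Or.inr ⟨i, i1, by simp only [Nat.add_eq]; omega, i2, i3⟩⟩
      ⟨hv, Or.inr ⟨j, j1, by simp only [Nat.add_eq]; omega, j2, j3⟩⟩
      (by simp only [Nat.add_eq]; omega) h2 _ _ _ _ _ _ _ _ a0 a1 b0 b1 c0 c1 h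

end Sem

end Pool.Agent.MP_8fe08c_co.h66
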