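import Pool.Agent.MP_8fe08c_co.h66.Chk
import Pool.Agent.MP_8fe08c_co.h66.Geo

/-! The tables bound the chord function. -/

set_option autoImplicit false

namespace Pool.Agent.MP_8fe08c_co.h66

open Real

theorem frc_eq {α : Type} (x : ℕ) (f : ℕ → α) : frc x f = f x := id (Eq.refl _)

theorem cnd_eq {α : Type} (b : Bool) (x y : α) : cnd b x y = if b = true then x else y := by
  cases b <;> rfl

theorem band_iff {a b : Bool} : band a b = true ↔ a = true ∧ b = true := by
  cases a <;> cases b <;> simp [band]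

theorem bor_iff {a b : Bool} : bor a b = true ↔ a = true ∨ b = true := by
  cases a <;> cases b <;> simp [bor]

theorem mx_eq (a b : ℕ) : mx a b = max a b := by
  unfold mx
  cases h : Nat.ble a b
  · exact (max_eq_left (Nat.not_le.1 (by simpa [← Nat.ble_eq] using h)).le).symm
  · exact (max_eq_right (Nat.le_of_ble_eq_true h)).symm

theorem mn_eq (a b : ℕ) : mn a b = min a b := by
  unfold mn
  cases h : Nat.ble a b
  · exact (min_eq_right (Nat.not_le.1 (by simpa [← Nat.ble_eq] using h)).le).symm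
  · exact (min_eq_left (Nat.le_of_ble_eq_true h)).symm

theorem allR_iff {f : ℕ → Bool} {n : ℕ} : allR f n = true ↔ ∀ j < n, f j = true := by
  induction n with
  | zero => simp [allR]
  | succ n ih =>
    rw [show allR f (n + 1) = band (allR f n) (f n) from rfl, band_iff, ih,
      Nat.forall_lt_succ_right]

theorem sin_tan {a y : ℝ} (ha : a ∈ Set.Icc 0 π) (hy : y ∈ Set.Icc 0 π) :
    sin y ≤ sin a + cos a * (y - a) := by
  have c := strictConcaveOn_sin_Icc.concaveOn
  rcases lt_trichotomy a y with h | rfl | h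
  · have := c.slope_le_of_hasDerivAt ha hy h (hasDerivAt_sin a)
    rw [slope_def_field, div_le_iff₀ (by linarith)] at this
    linarith
  · simp
  · have := c.le_slope_of_hasDerivAt hy ha h (hasDerivAt_sin a)
    rw [slope_def_field, le_div_iff₀ (by linarith)] at this
    linarith

theorem arg_mem {U x : ℝ} (hU : 0 < U) (h0 : 0 ≤ x) (h1 : x ≤ U) : π * x / U ∈ Set.Icc 0 π :=
  ⟨by positivity, by rw [div_le_iff₀ hU]; exact mul_le_mul_of_nonneg_left h1 pi_pos.le⟩

theorem ch_conc {U a b f p q κ : ℝ} (hU : 0 < U) (h0 : 0 ≤ a) (h1 : a ≤ f) (h2 : f ≤ b)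
    (h3 : b ≤ U) (hκ : 0 ≤ κ) (ha : p + q * a ≤ κ * ch U a) (hb : p + q * b ≤ κ * ch U b) :
    p + q * f ≤ κ * ch U f := by
  rcases (h1.trans h2).eq_or_lt with rfl | h
  · rwa [le_antisymm h2 h1]
  have hd : 0 < b - a := by linarith
  have := strictConcaveOn_sin_Icc.concaveOn.2 (arg_mem hU h0 (by linarith))
    (arg_mem hU (by linarith) h3) (div_nonneg (show 0 ≤ b - f by linarith) hd.le)
    (div_nonneg (show 0 ≤ f - a by linarith) hd.le) (by field_simp; ring)
  simp only [smul_eq_mul] at this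
  rw [show (b - f) / (b - a) * (π * a / U) + (f - a) / (b - a) * (π * b / U) = π * f / U by
    field_simp; ring, div_mul_eq_mul_div, div_mul_eq_mul_div, ← add_div, div_le_iff₀ hd] at this
  unfold ch at *
  refine le_of_mul_le_mul_right ?_ hd
  linarith [mul_le_mul_of_nonneg_left ha (show 0 ≤ b - f by linarith),
    mul_le_mul_of_nonneg_left hb (show 0 ≤ f - a by linarith), mul_le_mul_of_nonneg_left this hκ]

theorem base :
    2637464901918975807457 ≤ 1208925819614629174706176 * sin (π / 1440) ∧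
    1208925819614629174706176 * sin (π / 1440) ≤ 2637464904771819271301 ∧
    1208922942583016155003539 ≤ 1208925819614629174706176 * cos (π / 1440) ∧
    1208925819614629174706176 * cos (π / 1440) ≤ 1208922942585868998467374 := by
  have p1 := pi_gt_d20
  have p2 := pi_lt_d20
  have a1 := sin_le_sin_of_le_of_le_pi_div_two (x := 3.14159265358979323846 / 1440) (y := π / 1440)
    (by linarith) (by linarith) (by linarith)
  have a2 := sin_le_sin_of_le_of_le_pi_div_two (x := π / 1440) (y := 3.14159265358979323847 / 1440)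
    (by linarith) (by linarith) (by linarith)
  have a3 := cos_le_cos_of_nonneg_of_le_pi (x := 3.14159265358979323846 / 1440) (y := π / 1440)
    (by norm_num) (by linarith) (by linarith)
  have a4 := cos_le_cos_of_nonneg_of_le_pi (x := π / 1440) (y := 3.14159265358979323847 / 1440)
    (by linarith) (by linarith) (by linarith)
  have b1 := (abs_le.1 (sin_bound (x := 3.14159265358979323846 / 1440) (by norm_num [abs_le]))).1
  have b2 := (abs_le.1 (sin_bound (x := 3.14159265358979323847 / 1440) (by norm_num [abs_le]))).2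
  have b3 := (abs_le.1 (cos_bound (x := 3.14159265358979323846 / 1440) (by norm_num [abs_le]))).2
  have b4 := (abs_le.1 (cos_bound (x := 3.14159265358979323847 / 1440) (by norm_num [abs_le]))).1
  rw [abs_of_pos (by norm_num)] at b1 b2 b3 b4
  norm_num at b1 b2 b3 b4 a1 a2 a3 a4
  refine ⟨?_, ?_, ?_, ?_⟩ <;> linarith

/-- what the tables satisfy at the index `t` -/
def TOK (t : ℕ) : Prop := (ts t : ℝ) ≤ 4294967296 * ch 1440 t ∧
  ∀ U d : ℝ, 0 < U → 0 ≤ d → d ≤ U → U * 4294967296 * ch U d ≤ ta t * U + tb t * d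

theorem tchk_ok {t s0 s1 c0 c1 : ℕ} (ht : t ≤ 720) (h : tchk t s0 s1 c0 c1 = true)
    (h1 : (s0 : ℝ) ≤ 1208925819614629174706176 * sin (t * (π / 1440)))
    (h2 : 1208925819614629174706176 * sin (t * (π / 1440)) ≤ s1)
    (h3 : (c0 : ℝ) ≤ 1208925819614629174706176 * cos (t * (π / 1440)))
    (h4 : 1208925819614629174706176 * cos (t * (π / 1440)) ≤ c1) : TOK t := by
  simp only [tchk, band_iff, Nat.ble_eq, Nat.mul_eq, Nat.add_eq, Nat.sub_eq] at h
  obtain ⟨k1, k2, k3⟩ := h
  have k1 := (Nat.cast_le (α := ℝ)).2 k1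
  have k2 := (Nat.cast_le (α := ℝ)).2 k2
  have k3 := (Nat.cast_le (α := ℝ)).2 k3
  push_cast [Nat.cast_sub (show t ≤ 1440 by omega)] at k1 k2 k3
  have t0 : (0 : ℝ) ≤ t := t.cast_nonneg
  have t1 : (t : ℝ) ≤ 720 := by exact_mod_cast ht
  have e : π * t / 1440 = t * (π / 1440) := by ring
  refine ⟨by rw [ch, e]; linarith, fun U d hU d0 d1 => ?_⟩
  have := sin_tan (arg_mem (U := 1440) (by norm_num) t0 (by linarith)) (arg_mem hU d0 d1)
  rw [e] at this
  generalize sin (t * (π / 1440)) = S at *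
  generalize cos (t * (π / 1440)) = C at *
  have c0' : (0 : ℝ) ≤ c0 := c0.cast_nonneg
  have C0 : 0 ≤ C := by linarith
  have i1 : 3.14159265358979323846 * c0 ≤ π * (1208925819614629174706176 * C) :=
    mul_le_mul pi_gt_d20.le h3 c0' pi_pos.le
  have i2 : π * (1208925819614629174706176 * C) ≤ 3.14159265358979323847 * c1 :=
    mul_le_mul pi_lt_d20.le h4 (by linarith) (by norm_num)
  have j1 : 8589934592 * (S - π * C * t / 1440) ≤ ta t := by
    linarith [mul_le_mul_of_nonneg_right i1 t0]
  have j2 : 8589934592 * (S + π * C * (1440 - t) / 1440) ≤ ta t + tb t := by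
    linarith [mul_le_mul_of_nonneg_right i2 (show (0 : ℝ) ≤ 1440 - t by linarith)]
  have j3 : U * sin (π * d / U) ≤ U * S + C * π * d - U * (π * C * t / 1440) := by
    have := mul_le_mul_of_nonneg_left this hU.le
    rwa [show U * (S + C * (π * d / U - t * (π / 1440))) =
      U * S + C * π * d - U * (π * C * t / 1440) by field_simp; ring] at this
  unfold ch
  linarith [mul_le_mul_of_nonneg_left j1 (show 0 ≤ U - d by linarith),
    mul_le_mul_of_nonneg_left j2 d0]

theorem div_le' {a b : ℕ} {y : ℝ} (hb : 0 < b) (h : (a : ℝ) ≤ b * y) : ((a / b : ℕ) : ℝ) ≤ y :=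
  Nat.cast_div_le.trans (by rwa [div_le_iff₀' (by exact_mod_cast hb)])

theorem le_div' {a b : ℕ} {y : ℝ} (hb : 0 < b) (h : b * y ≤ (a : ℝ)) :
    y ≤ ((a / b + 1 : ℕ) : ℝ) := by
  have h1 : (a : ℝ) ≤ (b * (a / b + 1) : ℕ) := Nat.cast_le.2 (Nat.lt_mul_div_succ a hb).le
  rw [Nat.cast_mul] at h1
  exact le_of_mul_le_mul_left (h.trans h1) (by exact_mod_cast hb)

theorem sub_le' {a b : ℕ} {y : ℝ} (h0 : 0 ≤ y) (h : (a : ℝ) - b ≤ y) : ((a - b : ℕ) : ℝ) ≤ y := by
  rcases le_total b a with k | k
  · rwa [Nat.cast_sub k]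
  · rwa [Nat.sub_eq_zero_of_le k, Nat.cast_zero]

theorem le_sub' (a b : ℕ) : (a : ℝ) - b ≤ ((a - b : ℕ) : ℝ) := by
  rcases le_total b a with k | k
  · rw [Nat.cast_sub k]
  · rw [Nat.sub_eq_zero_of_le k, Nat.cast_zero, sub_nonpos]
    exact_mod_cast k

theorem tloop_succ {n t s0 s1 c0 c1 : ℕ} (h : tloop (n + 1) t s0 s1 c0 c1 = true) :
    tchk t s0 s1 c0 c1 = true ∧ tloop n (t + 1)
      ((s0 * 1208922942583016155003539 + c0 * 2637464901918975807457) / 1208925819614629174706176)
      ((s1 * 1208922942585868998467374 + c1 * 2637464904771819271301) /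
        1208925819614629174706176 + 1)
      ((c0 * 1208922942583016155003539 - s1 * 2637464904771819271301) / 1208925819614629174706176)
      ((c1 * 1208922942585868998467374 - s0 * 2637464901918975807457) /
        1208925819614629174706176 + 1) = true := by
  obtain ⟨k1, k2⟩ := band_iff.1 h
  rw [frc_eq, frc_eq, frc_eq, frc_eq, frc_eq] at k2
  exact ⟨k1, k2⟩

theorem tloop_ok (n : ℕ) : ∀ t s0 s1 c0 c1 : ℕ, t + n ≤ 721 → tloop n t s0 s1 c0 c1 = true →
    (t ≤ 720 → (s0 : ℝ) ≤ 1208925819614629174706176 * sin (t * (π / 1440)) ∧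
      1208925819614629174706176 * sin (t * (π / 1440)) ≤ s1 ∧
      (c0 : ℝ) ≤ 1208925819614629174706176 * cos (t * (π / 1440)) ∧
      1208925819614629174706176 * cos (t * (π / 1440)) ≤ c1) →
    ∀ j, t ≤ j → j < t + n → TOK j := by
  induction n with
  | zero => intro t _ _ _ _ _ _ _ j h1 h2; omega
  | succ n ih =>
    intro t s0 s1 c0 c1 hn h hi j j1 j2
    obtain ⟨h1, h2, h3, h4⟩ := hi (by omega)
    obtain ⟨k1, k2⟩ := tloop_succ h
    rcases j1.eq_or_lt with rfl | j1
    · exact tchk_ok (by omega) k1 h1 h2 h3 h4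
    refine ih (t + 1) _ _ _ _ (by omega) k2 (fun ht => ?_) j j1 (by omega)
    obtain ⟨b1, b2, b3, b4⟩ := base
    have e : ((t + 1 : ℕ) : ℝ) * (π / 1440) = t * (π / 1440) + π / 1440 := by push_cast; ring
    have c : 0 ≤ cos (((t + 1 : ℕ) : ℝ) * (π / 1440)) := by
      have : ((t + 1 : ℕ) : ℝ) ≤ 720 := by exact_mod_cast ht
      exact cos_nonneg_of_neg_pi_div_two_le_of_le (by
        have : 0 ≤ ((t + 1 : ℕ) : ℝ) * (π / 1440) := by positivity
        linarith [pi_pos]) (by nlinarith [pi_pos])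
    rw [e, cos_add] at c
    rw [e, sin_add, cos_add]
    generalize sin (t * (π / 1440)) = S at *
    generalize cos (t * (π / 1440)) = C at *
    generalize sin (π / 1440) = s at *
    generalize cos (π / 1440) = c at *
    have z1 : (0 : ℝ) ≤ s0 := s0.cast_nonneg
    have z2 : (0 : ℝ) ≤ c0 := c0.cast_nonneg
    have m1 := mul_le_mul h1 b3 (by norm_num) (by linarith)
    have m2 := mul_le_mul h3 b1 (by norm_num) (by linarith)
    have m3 := mul_le_mul h2 b4 (by linarith) (by linarith)
    have m4 := mul_le_mul h4 b2 (by linarith) (by linarith)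
    have m5 := mul_le_mul h3 b3 (by norm_num) (by linarith)
    have m6 := mul_le_mul h2 b2 (by linarith) (by linarith)
    have m7 := mul_le_mul h4 b4 (by linarith) (by linarith)
    have m8 := mul_le_mul h1 b1 (by norm_num) (by linarith)
    refine ⟨div_le' (by norm_num) ?_, le_div' (by norm_num) ?_,
      div_le' (by norm_num) (sub_le' (by positivity) ?_),
      le_div' (by norm_num) (le_trans ?_ (le_sub' _ _))⟩ <;>
    · push_cast
      linarith

theorem tok {t : ℕ} (h : t ≤ 720) : TOK t :=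
  tloop_ok 721 0 _ _ _ _ le_rfl tab_ok (fun _ => by simp) t t.zero_le (by omega)

theorem tix_le {U d : ℕ} (hU : 0 < U) (h : d ≤ U) : tix U d ≤ 720 := by
  simp only [tix, Nat.mul_eq, Nat.add_eq]
  exact Nat.lt_succ_iff.1 ((Nat.div_lt_iff_lt_mul (by omega)).2 (by omega))

theorem Lw_le (x : Cx) (hU : 0 < x.U) (hd : 0 < x.cd) {f : ℕ} (hf : f ≤ x.U) :
    (Lw x f : ℝ) ≤ x.cn / x.cd * (x.U * 4294967296) * ch x.U f := by
  have hU' : (0 : ℝ) < x.U := by exact_mod_cast hU
  have hd' : (0 : ℝ) < x.cd := by exact_mod_cast hd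
  have e : ch x.U f = ch x.U (min f (x.U - f) : ℕ) := by
    rcases le_total f (x.U - f) with h | h
    · rw [min_eq_left h]
    · rw [min_eq_right h, Nat.cast_sub hf, ch_symm hU']
  have g2 : 2 * min f (x.U - f) ≤ x.U := by omega
  simp only [Lw, frc_eq, mn_eq, Nat.mul_eq, Nat.add_eq, Nat.sub_eq]
  rw [e]
  generalize min f (x.U - f) = g at g2
  have h1 := Nat.div_add_mod (1440 * g) x.U
  have h2 := Nat.mod_lt (1440 * g) hU
  change (((x.cn * (ts (1440 * g / x.U) * (x.U - 1440 * g % x.U) +
    ts (1440 * g / x.U + 1) * (1440 * g % x.U))) / x.cd : ℕ) : ℝ) ≤ _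
  generalize 1440 * g / x.U = t at h1
  generalize 1440 * g % x.U = r at h1 h2
  refine div_le' hd ?_
  push_cast [Nat.cast_sub h2.le]
  have h3 : (x.U : ℝ) * t + r = 1440 * g := by exact_mod_cast h1
  have r0 : (0 : ℝ) ≤ r := r.cast_nonneg
  have r1 : (r : ℝ) ≤ x.U := by exact_mod_cast h2.le
  have e2 : ch x.U g = ch 1440 (t + r / x.U) := by
    unfold ch
    congr 2
    field_simp
    linarith
  have ht : t ≤ 720 := by nlinarith
  have key : (ts t : ℝ) * (x.U - r) + ts (t + 1) * r ≤ x.U * 4294967296 * ch x.U g := by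
    rw [e2]
    rcases ht.eq_or_lt with rfl | ht
    · obtain rfl : r = 0 := by omega
      have := mul_le_mul_of_nonneg_left (tok le_rfl).1 hU'.le
      simp only [Nat.cast_zero, zero_div, add_zero, mul_zero, sub_zero]
      linarith
    · have a1 := (tok ht.le).1
      have a2 := (tok (t := t + 1) ht).1
      have t1 : (t : ℝ) ≤ 720 := by exact_mod_cast ht.le
      push_cast at a2
      have := ch_conc (U := 1440) (a := t) (b := t + 1) (f := t + r / x.U) (κ := 4294967296)
        (p := ts t - (ts (t + 1) - ts t) * t) (q := ts (t + 1) - ts t) (by norm_num) t.cast_nonneg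
        (le_add_of_nonneg_right (by positivity)) (by have := (div_le_one hU').2 r1; linarith)
        (by linarith) (by norm_num) (by linarith) (by linarith)
      have := mul_le_mul_of_nonneg_left this hU'.le
      rw [show (x.U : ℝ) * (ts t - (ts (t + 1) - ts t) * t + (ts (t + 1) - ts t) * (t + r / x.U)) =
        ts t * (x.U - r) + ts (t + 1) * r by field_simp; ring] at this
      linarith
  rw [show (x.cd : ℝ) * (x.cn / x.cd * (x.U * 4294967296) * ch x.U g) =
    x.cn * (x.U * 4294967296 * ch x.U g) by field_simp]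
  exact mul_le_mul_of_nonneg_left key x.cn.cast_nonneg

end Pool.Agent.MP_8fe08c_co.h66
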