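import Pool.Agent.MP_8fe08c_co.h66.Sound

/-! From an accepted certificate to a bound on the plane dilation. -/

set_option autoImplicit false

namespace Pool.Agent.MP_8fe08c_co.h66

open h31

theorem walkA {U : ℝ} {Q : Set ℝ} {B : ℝ → ℝ → Prop} {D : ℝ → ℝ → ℝ → Prop} (A : Ax U Q B D)
    (Φ : ℝ → ℝ) (hΦ : ∀ y ∈ Q, ∀ z ∈ Q, 0 ≤ y → y < z → z ≤ U → (∀ w ∈ Q, ¬ (y < w ∧ w < z)) →
      ch U (z - y) ≤ Φ z - Φ y) (n : ℕ) : ∀ y ∈ Q, ∀ z ∈ Q, 0 ≤ y → y ≤ z → z ≤ U →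
      (Q ∩ Set.Ioo y z).ncard < n → D y z (Φ z - Φ y) := by
  induction n with
  | zero => exact fun _ _ _ _ _ _ _ h => absurd h (Nat.not_lt_zero _)
  | succ n ih =>
    intro y hy z hz h0 h1 h2 h
    rcases h1.eq_or_lt with rfl | h1
    · rw [sub_self]
      exact A.refl y hy
    by_cases e : ∀ w ∈ Q, ¬ (y < w ∧ w < z)
    · exact A.mono _ _ _ _ (A.cons y hy z hz h0 h1 h2 e) (hΦ y hy z hz h0 h1 h2 e)
    push Not at e
    obtain ⟨w, hw, w1, w2⟩ := e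
    have f : (Q ∩ Set.Ioo y z).Finite :=
      A.fin.subset fun t ht => ⟨ht.1, h0.trans ht.2.1.le, ht.2.2.le.trans h2⟩
    have s : ∀ a b, y ≤ a → b ≤ z → w = a ∨ w = b → (Q ∩ Set.Ioo a b).ncard < n := by
      intro a b h3 h4 h5
      refine lt_of_lt_of_le (Set.ncard_lt_ncard (Set.ssubset_def ▸ ⟨fun t ht =>
        ⟨ht.1, h3.trans_lt ht.2.1, ht.2.2.trans_le h4⟩, fun k => ?_⟩) f) (Nat.lt_succ_iff.1 h)
      have := (k ⟨hw, w1, w2⟩).2
      rcases h5 with rfl | rfl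
      exacts [lt_irrefl _ this.1, lt_irrefl _ this.2]
    exact A.mono _ _ _ _ (A.trans _ _ _ _ _
      (ih y hy w hw h0 w1.le (w2.le.trans h2) (s _ _ le_rfl w2.le (Or.inr rfl)))
      (ih w hw z hz (h0.trans w1.le) w2.le h2 (s _ _ w1.le le_rfl (Or.inl rfl)))) (by linarith)

/-- the savings up to the position `y` -/
noncomputable def shiR : List (ℕ × ℕ × ℕ) → ℝ → ℝ
  | [], _ => 0
  | a :: E, y => if a.2.1 ≤ y then a.2.2 + shiR E y else 0

theorem shiR_nonneg (E : List (ℕ × ℕ × ℕ)) (y : ℝ) : 0 ≤ shiR E y := by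
  induction E with
  | nil => exact le_rfl
  | cons a E ih => unfold shiR; split_ifs <;> positivity

theorem shiR_mono (E : List (ℕ × ℕ × ℕ)) {y z : ℝ} (h : y ≤ z) : shiR E y ≤ shiR E z := by
  induction E with
  | nil => exact le_rfl
  | cons a E ih =>
    unfold shiR
    split_ifs with h1 h2
    exacts [by linarith, absurd (h1.trans h) h2, by have := shiR_nonneg E z; positivity, le_rfl]

theorem shi_eq (E : List (ℕ × ℕ × ℕ)) (y : ℕ) : (shi E y : ℝ) = shiR E y := by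
  induction E with
  | nil => exact Nat.cast_zero
  | cons a E ih =>
    rw [show shi (a :: E) y = cnd (Nat.ble a.2.1 y) (a.2.2 + shi E y) 0 from rfl, cnd_eq, shiR, ← ih]
    simp only [Nat.ble_eq, Nat.cast_le]
    split_ifs <;> simp

theorem le_slo {E : List (ℕ × ℕ × ℕ)} (hE : ∀ a ∈ E, a.1 < a.2.1) (y : ℕ) :
    shiR E y ≤ slo E y := by
  induction E with
  | nil => exact Nat.cast_nonneg _
  | cons a E ih =>
    rw [show slo (a :: E) y = cnd (Nat.ble y a.1) 0 (a.2.2 + slo E y) from rfl, cnd_eq, shiR]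
    have h1 := hE a List.mem_cons_self
    have h2 := ih fun b hb => hE b (List.mem_cons_of_mem _ hb)
    simp only [Nat.ble_eq, Nat.cast_le]
    split_ifs
    exacts [by omega, by push_cast; linarith, by simp, Nat.cast_nonneg _]

/-- the exact label of a point -/
def At (m : ℕ) (Q : Set ℝ) (K : ℕ → ℝ) (l : ℕ) (y : ℝ) : Prop :=
  y ∈ Q ∧ ((∃ a < m, l = 2 * a ∧ y = K a) ∨ ∃ i < m, l = 2 * i + 1 ∧ K i < y ∧ y < K (i + 1))

theorem bit_iff {W l l' : ℕ} : bit W l l' = true ↔ W.testBit (32 * l + l') = true := by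
  simp only [bit, Nat.beq_eq, Nat.mul_eq, Nat.add_eq, Nat.testBit_eq_decide_div_mod_eq,
    decide_eq_true_eq, ← Nat.shiftRight_eq_div_pow]
  rfl

theorem free_no {m W r q t : ℕ} (h : free m W r q = true) (h1 : q + 1 ≤ t + q % 2) (h2 : t < 2 * m) :
    bit W r t ≠ true := by
  rw [free, frc_eq, Nat.beq_eq] at h
  change W >>> (32 * r + (q + 1 - q % 2)) % 2 ^ (2 * m - (q + 1 - q % 2)) = 0 at h
  have := congrArg (Nat.testBit · (t - (q + 1 - q % 2))) h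
  simp only [Nat.testBit_mod_two_pow, Nat.testBit_shiftRight, Nat.zero_testBit] at this
  rw [show 32 * r + (q + 1 - q % 2) + (t - (q + 1 - q % 2)) = 32 * r + t by omega,
    decide_eq_true (by omega), Bool.true_and] at this
  rw [Ne, bit_iff, this]
  simp

section top

variable {m W : ℕ} {Q : Set ℝ} {K : ℕ → ℝ}

theorem At.lt {l : ℕ} {y : ℝ} (h : At m Q K l y) : l < 2 * m := by
  rcases h.2 with ⟨a, h1, rfl, -⟩ | ⟨a, h1, rfl, -⟩ <;> omega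

theorem At.le (Kl : ∀ a b, a ≤ b → b ≤ m → K a ≤ K b) {l l' : ℕ} {y z : ℝ} (h : At m Q K l y)
    (k : At m Q K l' z) (e : y < z) : l + 1 ≤ l' + l % 2 := by
  by_contra c
  rcases h.2 with ⟨a, h1, rfl, rfl⟩ | ⟨i, h1, rfl, h2, h3⟩ <;>
    rcases k.2 with ⟨b, k1, rfl, rfl⟩ | ⟨j, k1, rfl, k2, k3⟩
  · linarith [Kl b a (by omega) h1.le]
  · linarith [Kl (j + 1) a (by omega) h1.le]
  · linarith [Kl b i (by omega) h1.le]
  · linarith [Kl (j + 1) i (by omega) h1.le]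

theorem At.rng (Kl : ∀ a b, a ≤ b → b ≤ m → K a ≤ K b) {l : ℕ} {y : ℝ} (h : At m Q K l y) :
    K 0 ≤ y ∧ y ≤ K m := by
  rcases h.2 with ⟨a, h1, -, rfl⟩ | ⟨i, h1, -, h2, h3⟩
  · exact ⟨Kl _ _ a.zero_le h1.le, Kl _ _ h1.le le_rfl⟩
  · exact ⟨(Kl _ _ i.zero_le h1.le).trans h2.le, h3.le.trans (Kl _ _ h1 le_rfl)⟩

/-- the chords of the scheme -/
def Bd (m W : ℕ) (Q : Set ℝ) (K : ℕ → ℝ) (y z : ℝ) : Prop :=
  ∃ s s', At m Q K s y ∧ At m Q K s' z ∧ y < z ∧ bit W s s' = true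

theorem no_cross (Kl : ∀ a b, a ≤ b → b ≤ m → K a ≤ K b) (h : lam m W = true) (x y z w : ℝ)
    (h1 : Bd m W Q K x y) (h2 : Bd m W Q K z w) : ¬ (x < z ∧ z < y ∧ y < w) := by
  obtain ⟨p, q, hp, hq, -, b1⟩ := h1
  obtain ⟨r, t, hr, ht, -, b2⟩ := h2
  rintro ⟨e1, e2, e3⟩
  have i1 := hp.le Kl hr e1
  have i2 := hr.le Kl hq e2
  have k := allR_iff.1 (allR_iff.1 h p hp.lt) q hq.lt
  rw [b1, cnd_eq, if_pos rfl] at k
  have k := allR_iff.1 k r (by simp only [Nat.add_eq]; omega)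
  rw [show le' p r = true from Nat.ble_eq_true_of_le i1, show le' r q = true from Nat.ble_eq_true_of_le i2] at k
  exact free_no k (hq.le Kl ht e3) ht.lt b2

theorem In.at {l : ℕ} {y : ℝ} (h0 : K 0 ∈ Q) (hm : 0 < m) (h : In m Q K l y) : l < 2 * m + 1 ∧
    ∃ s y', At m Q K s y' ∧ (s = nu1 m l ∨ s = nu2 m l) ∧ (y' = y ∨ y' = K 0 ∧ y = K m) := by
  simp only [nu1, nu2, cnd_eq, Nat.beq_eq, Nat.mul_eq, Nat.sub_eq]
  rcases h.2 with ⟨a, h1, rfl, rfl⟩ | ⟨i, h1, rfl, h2, h3⟩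
  · refine ⟨by omega, ?_⟩
    rcases h1.eq_or_lt with rfl | h1
    · exact ⟨0, _, ⟨h0, Or.inl ⟨0, hm, rfl, rfl⟩⟩, Or.inl (if_pos rfl).symm, Or.inr ⟨rfl, rfl⟩⟩
    · exact ⟨_, _, ⟨h.1, Or.inl ⟨a, h1, rfl, rfl⟩⟩, Or.inl (if_neg (by omega)).symm, Or.inl rfl⟩
  · refine ⟨by omega, ?_⟩
    rcases h2.eq_or_lt with rfl | h2
    · refine ⟨_, _, ⟨h.1, Or.inl ⟨i, h1, rfl, rfl⟩⟩, Or.inr ?_, Or.inl rfl⟩
      rw [if_neg (by omega)]
      change _ = 2 * i + 1 - (2 * i + 1) % 2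
      omega
    · exact ⟨_, _, ⟨h.1, Or.inr ⟨i, h1, rfl, h2, h3⟩⟩, Or.inl (if_neg (by omega)).symm, Or.inl rfl⟩

theorem chordA {U : ℝ} {D : ℝ → ℝ → ℝ → Prop} (hU : 0 < U) (A : Ax U Q (Bd m W Q K) D)
    (K0 : K 0 = 0) (Km : K m = U) (h0 : K 0 ∈ Q) (h : clo m W = true) {l l' : ℕ} {y z : ℝ}
    (hy : In m Q K l y) (hz : In m Q K l' z) (y0 : 0 ≤ y) (e : y ≤ z) (z1 : z ≤ U)
    (b : bit W l l' = true) : D y z (ch U (z - y)) := by
  have hm : 0 < m := Nat.pos_of_ne_zero fun v => by rw [v] at Km; linarith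
  rcases e.eq_or_lt with rfl | e
  · rw [sub_self, ch_zero]
    exact A.refl y hy.1
  obtain ⟨l1, s, y', a1, s1, e1⟩ := hy.at h0 hm
  obtain ⟨l2, s', z', a2, s2, e2⟩ := hz.at h0 hm
  obtain rfl : y' = y := e1.resolve_right fun v => by linarith [v.2]
  have k := allR_iff.1 (allR_iff.1 h l l1) l' l2
  rw [b] at k
  have k : ok2 W s s' = true := by
    obtain ⟨k1, k2⟩ := band_iff.1 k
    rcases s1 with rfl | rfl <;> rcases s2 with rfl | rfl
    exacts [(band_iff.1 k1).1, (band_iff.1 k1).2, (band_iff.1 k2).1, (band_iff.1 k2).2]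
  simp only [ok2, bor_iff, band_iff, Nat.beq_eq] at k
  have q : s = s' ∧ s.mod 2 = 0 → y' = z' := by
    rintro ⟨rfl, v⟩
    change s % 2 = 0 at v
    rcases a1.2 with ⟨a, -, rfl, rfl⟩ | ⟨i, -, rfl, -⟩
    · rcases a2.2 with ⟨b, -, w, rfl⟩ | ⟨i, -, w, -⟩
      exacts [by rw [show a = b by omega], by omega]
    · omega
  rcases e2 with rfl | ⟨e2, e3⟩
  · exact A.edge _ _ ⟨s, s', a1, a2, e, (k.resolve_left fun v => e.ne (q v)).1⟩
  rw [K0] at e2 h0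
  rw [Km] at e3
  subst e2 e3
  rw [ch_symm hU]
  rcases y0.eq_or_lt with rfl | y0
  · rw [ch_zero]
    exact A.per h0
  · have := A.edge _ _ ⟨s', s, a2, a1, y0, (k.resolve_left fun v => y0.ne' (q v)).2⟩
    simpa using A.trans _ _ _ _ _ (A.symm _ _ _ this) (A.per h0)

end top

theorem leaf {c : Pt} {r θ : ℝ} (hr : 0 < r) (P : Finset Pt) (x : Cx) {s : ℕ} (K : ℕ → ℝ)
    (h1 : topOK x.m x.W = true) (h2 : leafOK x s = true) (U0 : 0 < x.U) (cd0 : 0 < x.cd)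
    (hP : ∀ p ∈ P, ∃ y : ℝ, 0 ≤ y ∧ y < x.U ∧ ee c r θ x.U y = p) (K0 : K 0 = 0) (Km : K x.m = x.U)
    (KQ : ∀ a ≤ x.m, ee c r θ x.U (K a) ∈ P) (Kw : ∀ a ≤ x.m, (lo x a : ℝ) ≤ K a ∧ K a ≤ hi x a)
    (hE : ∀ a ∈ x.E, a.1 < a.2.1)
    (emp : ∀ a ∈ x.E, ∀ y, ee c r θ x.U y ∈ P → 0 ≤ y → y < x.U → y < a.1 ∨ a.2.1 ≤ y)
    (lat : x.e = 0 ∨ x.e = 1 ∧ ∀ y, ee c r θ x.U y ∈ P → 0 ≤ y → y < x.U → ∃ k : ℕ, y = k)
    (hW : ∀ y z, ee c r θ x.U y ∈ P → ee c r θ x.U z ∈ P → 0 ≤ y → y < z → z ≤ x.U →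
      (∀ w, ee c r θ x.U w ∈ P → ¬ (y < w ∧ w < z)) →
      x.U * 4294967296 * ch x.U (z - y) ≤ x.H * (z - y) - (shiR x.E z - shiR x.E y)) :
    planeDilation P ≤ ENNReal.ofReal (x.cn / x.cd) := by
  have hU : (0 : ℝ) < x.U := by exact_mod_cast U0
  have hS : (0 : ℝ) < x.U * 4294967296 := by positivity
  obtain ⟨t1, t2⟩ := band_iff.1 h1
  have Kl : ∀ a b, a ≤ b → b ≤ x.m → K a ≤ K b := by
    intro a b hab
    induction b, hab using Nat.le_induction with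
    | base => exact fun _ => le_rfl
    | succ b _ ih =>
      intro hb
      have := (Nat.cast_le (α := ℝ)).2
        (Nat.le_of_ble_eq_true (allR_iff.1 (band_iff.1 h2).1 b hb))
      simp only [Nat.add_eq] at this
      push_cast at this
      linarith [ih (by omega), (Kw b (by omega)).2, (Kw (b + 1) hb).1]
  refine geo hr hU P (Bd x.m x.W {y | ee c r θ x.U y ∈ P} K) hP ?_ (no_cross Kl t1) ?_
  · rintro y z ⟨s, s', a1, a2, e, -⟩
    exact ⟨a1.1, a2.1, K0 ▸ (a1.rng Kl).1, e, Km ▸ (a2.rng Kl).2⟩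
  intro D A u v hu hv u0 uv v1
  have h0 : ee c r θ x.U 0 ∈ P := K0 ▸ KQ 0 x.m.zero_le
  have S : Sem x {y | ee c r θ x.U y ∈ P} K fun y z t => D y z (t / (x.U * 4294967296)) := by
    refine ⟨U0, cd0, fun y z t => A.symm _ _ _, fun y z w s t d e => ?_,
      fun y z s t d e => A.mono _ _ _ _ d (by gcongr), by rw [zero_div]; exact A.per h0, K0, Km, KQ,
      Kw, Kl, fun l l' y z hy hz e b => ?_, fun y hy z hz y0 e z1 b a k1 k2 => ?_, emp, lat⟩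
    · rw [add_div]
      exact A.trans _ _ _ _ _ d e
    · rw [mul_div_cancel_left₀ _ hS.ne']
      refine chordA hU A K0 Km (KQ 0 x.m.zero_le) t2 hy hz ?_ e ?_ b
      · rcases hy.2 with ⟨a, k, -, rfl⟩ | ⟨a, k, -, k1, -⟩
        exacts [K0 ▸ Kl 0 a a.zero_le k, (K0 ▸ Kl 0 a a.zero_le k.le).trans k1]
      · rcases hz.2 with ⟨a, k, -, rfl⟩ | ⟨a, k, -, -, k1⟩
        exacts [Km ▸ Kl a _ k le_rfl, k1.le.trans (Km ▸ Kl _ _ k le_rfl)]
    · refine A.mono _ _ _ _ (walkA A (fun y => (x.H * y - shiR x.E y) / (x.U * 4294967296))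
        (fun y hy z hz i0 i1 i2 i3 => ?_) _ y hy z hz y0 e z1 (Nat.lt_succ_self _)) ?_
      · rw [← sub_div, le_div_iff₀' hS]
        linarith [hW y z hy hz i0 i1 i2 i3]
      · rw [← sub_div]
        have := sub_le' (a := shi x.E a) (b := slo x.E b) (sub_nonneg.2 (shiR_mono x.E e)) (by
          rw [shi_eq]
          linarith [shiR_mono x.E k1, shiR_mono x.E k2, le_slo hE b])
        exact div_le_div_of_nonneg_right (by linarith) hS.le
  have := S.sound h2 hu hv u0 uv v1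
  rwa [show (x.cn : ℝ) / x.cd * (x.U * 4294967296) * ch x.U (v - u) / (x.U * 4294967296) =
    x.cn / x.cd * ch x.U (v - u) by field_simp] at this

end Pool.Agent.MP_8fe08c_co.h66
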